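import Pool.Agent.H89.TT.NoS
import Pool.Agent.H65.NFC.One
import Pool.Agent.H78.MIC.MicI

/-!
# P4J: the local theorem with faster coordinates, any slope of the target

As P4I, for slopes of the target which may be larger than `3`: the slopes before the target are
smaller than `2` or at least `1 + th`, the threshold `th` satisfies `gt n - 1 < th ≤ gt n`; the
coordinates with `gt l < 1 + th` are rough. The lines are straight, and the natural velocities of the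
base are not in a slab (then closed frames are affine).

`QJ`: the closed conditions for the slopes; `XJ`: the joint property of the cells; `micX_J`: the form
which is used for the classes.
-/

set_option autoImplicit false

namespace Pool.STAT

open Finset MvPolynomial
open Pool.Agent.H49.Ent Pool.Agent.H32.Dense Pool.STK Pool.KS3
open Pool.BFL (Pb)
open Pool.P4 (GnL NBT NewLabT NFc1)

/-- **P4J, the local theorem**, one set of parameters. -/
def P4JT1 (n K A B : ℕ) (gt : ℕ → ℝ) (R : ℕ → Prop) (C₁ h δ : ℝ) : Prop :=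
  ∃ (M Q K' : ℕ) (η' κ ϖ : ℝ) (z₀ : ℕ), 0 < η' ∧ 0 < κ ∧ 0 < ϖ ∧ ϖ ≤ 1 ∧
    ∀ (lam : ℕ → ℝ) (J a₀ w₀ z : ℕ) (D : NDat2) (q : D.Ω → ℝ) (U : GnL D),
      (∀ l, 1 ≤ l → l ≤ n → lam l = 1) → z₀ ≤ z →
      D.Ok2 n K J a₀ w₀ z M lam gt κ C₁ q → D.NF n z M B gt h C₁ ϖ q →
      NFc1 D n z M B gt (h + δ) C₁ q → D.TmU J w₀ z κ q → D.Strt → D.Slp n J z M q →
      D.NoSl n J w₀ z M 1 C₁ κ q → U.Ok n K J a₀ w₀ z M Q R C₁ q →
      ∃ l, 1 ≤ l ∧ l ≤ n ∧ (l = n ∨ R l) ∧ ∃ i ≤ M, ∃ j ≤ M,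
        NewLabT D U J a₀ w₀ z Q R i j l A K' η' q

/-- **P4J**, all cells, one closed context. `δ` depends only on `n`, `B` and on a lower bound of
`h`. -/
def P4JStmt1 : Prop :=
  ∀ (n B : ℕ) (h₀ : ℝ), 1 ≤ n → 1 ≤ B → 0 < h₀ → ∃ δ : ℝ, 0 < δ ∧
    ∀ (K A : ℕ) (gt : ℕ → ℝ) (th : ℝ) (R : ℕ → Prop) (C₁ h : ℝ), h₀ ≤ h → h ≤ 1 →
    (∀ l, 0 ≤ gt l) → 1 ≤ th → gt n - 1 < th → th ≤ gt n →
    (∀ l, 1 ≤ l → l < n → gt l < 1 ∨ th ≤ gt l) →
    (∀ l, 1 ≤ l → l < n → gt l < 1 + th → R l) → 1 ≤ C₁ → P4JT1 n K A B gt R C₁ h δ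

/-- **The joint property of the cells of P4J.** -/
def XJ (K A : ℕ) (R : ℕ → Prop) (x : ℝ) : ExtX :=
  fun B lam gam n J a₀ w₀ z M Q K' η' κ C₁ D q =>
    XP4 K A R x B lam gam n J a₀ w₀ z M Q K' η' κ C₁ D q ∧ D.Strt ∧ D.Slp n J z M q ∧
      D.NoSl n J w₀ z M 1 C₁ κ q

theorem xJ_mono (K A : ℕ) (R : ℕ → Prop) (x : ℝ) : (XJ K A R x).Mono := by
  refine ⟨?_⟩
  rintro B lam gam n J a₀ w₀ z M Q Q' K' K'' η η' κ κ' C₁ C₁' D q hq h1 h2 h3 h4 h5
    ⟨k1, k2, k3, k4⟩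
  exact ⟨(xP4_mono K A R x).mono hq h1 h2 h3 h4 h5 k1, k2, k3, k4.mono le_rfl h5 h4⟩

/-- **The slopes of the cells with ties and faster coordinates**, the slope of the target is at least
`3`: the slopes before the target are smaller than `2`, or equal to the slope of the target, or
larger; the coordinates outside `R` are faster. -/
def QJ (R : ℕ → Prop) (n : ℕ) (c : ℝ) : CondN := fun lam gam =>
  (∀ l, 1 ≤ l → l ≤ n → lam l = 1) ∧ (2 ≤ gam n ∧
    ((∀ l, 1 ≤ l → l < n → gam l ≤ 1 - c ∨ (gam l = gam n ∨ gam n + c ≤ gam l)) ∧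
      ∀ l, 1 ≤ l → l < n → ¬ R l → gam n + c ≤ gam l))

theorem qJ_cl (R : ℕ → Prop) {n : ℕ} (hn : 1 ≤ n) (c : ℝ) : (QJ R n c).Cl n := by
  have e1 : ∀ l, 1 ≤ l → l < n → CondN.Cl (fun _ gam => gam n + c ≤ gam l) n := by
    intro l h1 h2
    refine ⟨isClosed_le (((continuous_apply n).comp continuous_snd).add continuous_const)
      ((continuous_apply l).comp continuous_snd), fun {lam gam lam' gam'} _ k2 h3 => ?_⟩
    rw [k2 l h1 h2.le, k2 n hn le_rfl]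
    exact h3
  refine (CondN.Cl.all fun l => CondN.Cl.imp fun h1 => CondN.Cl.imp fun h2 =>
    CondN.Cl.lam_eq h1 h2 1).and (CondN.Cl.and ⟨?_, fun {lam gam lam' gam'} _ k2 h3 => ?_⟩
    ((CondN.Cl.all fun l => CondN.Cl.imp fun h1 => CondN.Cl.imp fun h2 =>
      ⟨?_, fun {lam gam lam' gam'} _ k2 h3 => ?_⟩).and (CondN.Cl.all fun l =>
      CondN.Cl.imp fun h1 => CondN.Cl.imp fun h2 => CondN.Cl.imp fun _ => e1 l h1 h2)))
  · exact isClosed_le continuous_const ((continuous_apply n).comp continuous_snd)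
  · rw [k2 n hn le_rfl]
    exact h3
  · exact (isClosed_le ((continuous_apply l).comp continuous_snd) continuous_const).union
      ((isClosed_eq ((continuous_apply l).comp continuous_snd)
        ((continuous_apply n).comp continuous_snd)).union (e1 l h1 h2).1)
  · rw [k2 l h1 h2.le, k2 n hn le_rfl]
    exact h3

/-- **The local theorem**, for the classes: `δ` depends on `n`, `B` and a lower bound of the
deficit. -/
theorem micX_J (hP : P4JStmt1) {n B₀ : ℕ} (hn : 1 ≤ n) (hB₀ : 1 ≤ B₀) {h₀ : ℝ}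
    (hh₀ : 0 < h₀) : ∃ δ : ℝ, 0 < δ ∧ ∀ (K A : ℕ) (R : ℕ → Prop) (h c : ℝ), h₀ ≤ h → h ≤ 1 →
      0 < c → MicX (XJ K A R (h + δ)) (QJ R n c) (fun B => B = B₀) n K h := by
  obtain ⟨δ, hδ, H⟩ := hP n B₀ h₀ hn hB₀ hh₀
  refine ⟨δ, hδ, fun K A R h c hh hh1 hc B lam gam C₁ hB hBB hlam hgam hgn hC₁ hQ => ?_⟩
  subst hBB
  obtain ⟨q1, q2, q3, q4⟩ := hQ
  have c0 : 0 < min c 1 := lt_min hc one_pos
  have c1 : min c 1 ≤ c := min_le_left _ _
  have c2 : min c 1 ≤ 1 := min_le_right _ _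
  obtain ⟨M, Q, K', η', κ, ϖ, z₀, a1, a2, a3, a4, H⟩ := H K A gam (gam n - 1 + min c 1) R C₁ h hh
    hh1 hgam (by linarith) (by linarith) (by linarith) (fun l h1 h2 => by
      rcases q3 l h1 h2 with h3 | h3 | h3
      · exact Or.inl (by linarith)
      · exact Or.inr (by linarith)
      · exact Or.inr (by linarith)) (fun l h1 h2 h3 => by
      by_contra h4
      have := q4 l h1 h2 h4
      linarith) hC₁
  refine ⟨M, Q, K', η', κ, ϖ, z₀, a1, a2, a3, fun J a₀ w₀ z D q hz hO hN hX => ?_⟩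
  obtain ⟨⟨x1, x2, U, x3, x4⟩, x5, x6, x7⟩ := hX
  obtain ⟨l, l1, l2, l3, i, hi, j, hj, h3⟩ := H lam J a₀ w₀ z D q U q1 hz hO hN x2 x1 x5 x6 x7 x3
  exact x4 l l1 l2 l3 i hi j hj h3

end Pool.STAT
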