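import Pool.Agent.H78.MIC.ClsG
import Pool.Agent.H78.TT.SlpF
import Pool.Agent.H14.P4J.Stm

/-!
# No boxes with ties, one coordinate has a label with gain, any joint property

`cls_CX`, `nok_CX`: as `cls_C`, `nok_Cg`, for the local theorems with a joint property `X` of the
cells which follows from the one of P4 (`hext`).
-/

set_option autoImplicit false

namespace Pool.PKG

open MeasureTheory Set Filter Topology
open Pool.Agent.H49.Ent Pool.Agent.H32.Dense Pool.STK Pool.KA Pool.KSAT Pool.K2S Pool.PB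
open Pool.GEN Pool.S6C Pool.STAT Pool.CHT Pool.GRW Pool.ONE Pool.STA
open Pool.LBT (LSys ThrOf)
open Pool.LEV (Law Lv)
open Pool.ALL (RateOf)
open Pool.TOP (TopS)
open Pool.RTS (iso Diag)
open Pool.STR (NumI CellD RowD NfB AffB Rle Nw)
open Pool.ISO (ChI)
open Pool.CHB (chsysB)
open Pool.STAT.CLO Pool.MIC6
open Pool.P4 (NFc1)

variable {n : ℕ} {hn : 2 ≤ n} {S : PCl n} {P : ℝ → ℝ → ℝ} {rr : ℝ → ℝ}
  {P' : ℕ → List (Fin n) × Fin n → ℝ → ℝ → ℝ} {Λ : Finset (Fin n) → Fin n → ℝ → ℝ → ℝ}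
  {PB : ℕ → List (Fin n) × Fin n → ℝ → ℝ → ℝ}
  (H : PkT hn S P rr P' Λ PB) {hTop : TopS n} {hF : FZX (n - 1)} {h : ℝ}
  {ρ' : ℝ → ℝ} {hρ : Rle rr ρ'}

/-- **The joint property `X K₄` follows from the one of P4** on the cells of a family of boxes. -/
def ExtOf (p : ((H.nk hTop hF).chg hρ H.up).Par) (I : ℝ → BS p.cell → Prop) (R : ℕ → Prop)
    (x' : ℝ) (X : ℕ → ExtX) : Prop :=
  ∀ (K₀ K' K₄ s₁ : ℕ) (sh : ℕ → ℕ), 1 ≤ K₀ → 1 ≤ K' → K' ≤ K₄ →
    ∀ (W : BS p.cell → ℕ → ℕ → ℝ → GrdP n) (her : ∀ q N M' θ, (W q N M' θ).Her),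
    (∀ q N M' θ (J : ℕ) (F : Fam n J) (D : GDat F) (A : F.Ω → Prop),
      W q N M' θ J F D A → (kitN H p K₀).kit.W q N M' θ J F D A) →
    (∃ C₄ : ℝ, ∀ C₁ ≥ C₄, ∀ B : ℕ, 1 ≤ B → B = n + 2 → ∀ (M' Q K'' : ℕ) (η' κ : ℝ), 0 < η' →
      0 < κ → EvQ I fun N θ q =>
        ((kitN H p K₀).kit.setW W her).FldN S K' s₁ sh M' N θ q
        fun G J F D q' => (XP4 K₄ 1 R x').nb B (lamS (n - 1 + 1) ((kitN H p K₀).kit.ml q))
          (gamS (n - 1 + 1) ((kitN H p K₀).kit.la q) ((kitN H p K₀).kit.ml q)) G.n J (up G.α J)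
          (up G.ϖ J) (up G.ζ J) G.M Q K'' η' κ C₁
          (((kitN H p K₀).kit.setW W her).nd q N M' θ G F D) q') →
    ∃ C₄ : ℝ, ∀ C₁ ≥ C₄, ∀ B : ℕ, 1 ≤ B → B = n + 2 → ∀ (M' Q K'' : ℕ) (η' κ : ℝ), 0 < η' →
      0 < κ → EvQ I fun N θ q =>
        ((kitN H p K₀).kit.setW W her).FldN S K' s₁ sh M' N θ q
        fun G J F D q' => (X K₄).nb B (lamS (n - 1 + 1) ((kitN H p K₀).kit.ml q))
          (gamS (n - 1 + 1) ((kitN H p K₀).kit.la q) ((kitN H p K₀).kit.ml q)) G.n J (up G.α J)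
          (up G.ϖ J) (up G.ζ J) G.M Q K'' η' κ C₁
          (((kitN H p K₀).kit.setW W her).nd q N M' θ G F D) q'

/-- **No boxes of a kind with ties, one coordinate has a label with gain**: `x'` is the deficit of
the closed rows, `Qc` a condition for the slopes, `X` the joint property. -/
theorem cls_CX {x' : ℝ} {X : ℕ → ExtX} (hX : ∀ K', (X K').Mono) {Qc : CondN}
    (hQc : Qc.Cl (n - 1 + 1)) {l₀ : ℕ} (hl₀ : l₀ < n - 1)
    (hP : ∀ K' : ℕ, MicX (X K') Qc (fun B => B = n + 2) (n - 1 + 1) K' h)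
    (hh : 0 < h) (hh1 : h ≤ 1) {p : ((H.nk hTop hF).chg hρ H.up).Par} (hpI : AdP H p)
    {ι : Type} {kd : p.cell.α → ι} {c β h' M : ℝ} {x : ι}
    (hexn : ExnI H p (IsK p.cell kd c β h' M x)) (hexs : ExsI H p (IsK p.cell kd c β h' M x))
    (hnfc : NfcI H p x' (IsK p.cell kd c β h' M x))
    (hext : ExtOf H p (IsK p.cell kd c β h' M x) (fun u => u ≠ l₀ + 1) x' X)
    (hc : 0 < c) (hβ : 0 < β)
    (hQ : ∀ q ε K₀, IsK p.cell kd c β h' M x ε q → Qc (fun _ => 1)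
      (gamS (n - 1 + 1) ((kitN H p K₀).kit.la q) ((kitN H p K₀).kit.ml q)))
    (hrow : ∀ ε' : ℝ, 0 < ε' → EvP (IsK p.cell kd c β h' M x) fun q =>
      NfB rr h (ε' * q.r) (P q.g q.g - q.r) (P q.g q.g + 3 * q.r))
    (hsrt : ∀ ε q, IsK p.cell kd c β h' M x ε q → ∀ k < n - 1, ∀ k' < k,
      dgN hn P P' (show Od n from q.k.2) k' q.g ≤ dgN hn P P' (show Od n from q.k.2) k q.g)
    {PW : ℕ → List (Fin n) × Fin n → ℝ → ℝ → ℝ}
    (hPW : ∀ j, ThrOf (chsysB n none (P' j)) S (PW j))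
    (hrgh : ∀ l ≤ n - 1, l ≠ l₀ → ∀ ε' : ℝ, 0 < ε' → EvP (IsK p.cell kd c β h' M x) fun q =>
      Box7 q.g q.r fun a w => bet (PW (show Od n from q.k.2).2)
        (cc hn (show Od n from q.k.2).1.1) l a w ≤
          dgN hn P P' (show Od n from q.k.2) l w + (a - w) + ε' * q.r)
    (hcon : ∀ ε' : ℝ, 0 < ε' → EvP (IsK p.cell kd c β h' M x) fun q =>
      Box7 q.g q.r fun a w => dgN hn P P' (show Od n from q.k.2) l₀ w + 2 * (a - w) ≤
        bet (P' (show Od n from q.k.2).2) (cc hn (show Od n from q.k.2).1.1) l₀ a w + ε' * q.r)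
    {DT : ℕ} (hgn : EvP (IsK p.cell kd c β h' M x) fun q =>
      GnW hn S P P' (show Od n from q.k.2) DT l₀ q.g q.r) :
    EvP (IsK p.cell kd c β h' M x) fun _ => False := by
  obtain ⟨K₀, K', s₁, sh, hK₀, hK', hgrd⟩ := cls_grd n hc
  have hI' := isK_mono p.cell kd c β h' M x
  have hsub := isK_sub p.cell kd c β h' M x
  have hlt := cls_hlt H hpI (c := c) (β := β) (hh := h') (M := M)
  have exn : ∀ k : ℝ, 0 < k → ∀ M' : ℕ, EvQ (IsK p.cell kd c β h' M x) fun N θ q =>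
      (kitN H p K₀).kit.FldN S K' s₁ sh M' N θ q
        fun G J F D q' => OKI.ExN D G.c G.n G.sh ((kitN H p K₀).kit.rc q N M' θ J F D)
          (up G.ϖ J) (up G.ζ J) G.M (G.gn J) (k * up G.ζ J) q' := hexn K₀ K' s₁ sh hK₀ hK'
  have exs : ∀ k : ℝ, 0 < k → ∀ M' : ℕ, EvQ (IsK p.cell kd c β h' M x) fun N θ q =>
      (kitN H p K₀).kit.FldN S K' s₁ sh M' N θ q
        fun G J F D q' => ExS D G.c G.n G.sh G.M (G.gn J) (k * up G.ζ J) q' :=
    hexs K₀ K' s₁ sh hK₀ hK'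
  obtain ⟨C₄, hnfc⟩ := hnfc K₀ K' s₁ sh hK₀ hK'
  have fcel := kit_cel H hpI (kd := kd) (h' := h') (M := M) hc hβ x K₀
  have hml : ∀ (q : BS p.cell), ∀ l < n - 1 + 1, (kitN H p K₀).kit.ml q l = 1 := fun _ _ _ => rfl
  -- the label with gain
  obtain ⟨S₂, hVc⟩ := hV_con hI' H.tmh (kitN H p K₀).kit hml (fun q => kit_inj H p K₀ q.k)
    (s₁ := s₁) (sh := sh) hK' fcel (be := fun q => P' (show Od n from q.k.2).2)
    (P := fun q => PW (show Od n from q.k.2).2) (fun q => hPW _) (l := l₀) (by omega)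
    (fun q k hk a w h0 h1 h2 => kit_Lp H q (by omega) a w h0 h1 h2)
    (fun k hk => kit_rgh H K₀ hPW (hrgh k (by omega) (by omega)))
    (kit_srt H K₀ hsrt hl₀) (DT := DT) (hgn.mono fun q h1 => by
      obtain ⟨aT, wT, eT, β', K₁, k1, k2, k3⟩ := h1
      refine ⟨aT, wT, eT, β', K₁, k1, ?_, k3⟩
      have e1 : (kitN H p K₀).kit.L q = fun k => iso (dgN hn P P' (show Od n from q.k.2) k) := by
        funext k
        show iso ((kitN H p K₀).Dg q k) = _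
        rw [kit_dg H q k]
      rw [e1]
      exact k2)
  obtain ⟨K₂, hK₂⟩ : ∃ K₂, K₂ = max (kitN H p K₀).kit.K DT := ⟨_, rfl⟩
  rw [← hK₂] at hVc
  obtain ⟨W₀, hW₀⟩ : ∃ W₀ : BS p.cell → ℕ → ℕ → ℝ → GrdP n, W₀ = fun q N M θ J F D A =>
      (kitN H p K₀).kit.W q N M θ J F D A ∧
        (kitN H p K₀).kit.Wco l₀ K₂ S₂ q N M θ J F D A := ⟨_, rfl⟩
  have her₀ : ∀ q N M θ, (W₀ q N M θ).Her := by
    intro q N M θ
    rw [hW₀]
    exact GrdP.Her.and ((kitN H p K₀).kit.her q N M θ) ((kitN H p K₀).kit.wco_her l₀ K₂ S₂ q N M θ)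
  have hWs₀ : ∀ q N M θ (J : ℕ) (F : Fam n J) (D : GDat F) (A : F.Ω → Prop),
      W₀ q N M θ J F D A → (kitN H p K₀).kit.W q N M θ J F D A ∧
        (kitN H p K₀).kit.Wco l₀ K₂ S₂ q N M θ J F D A := by
    intro q N M θ J F D A h1
    rw [hW₀] at h1
    exact h1
  obtain ⟨W, her, hfact⟩ := factIN H.tmh ((kitN H p K₀).setW W₀ her₀) (kit_inj H p K₀) (K' := K')
    (s₁ := s₁) (sh := sh) hK' hc hβ (cls_hP H) (cls_hD H) hlt hI' hsub
    (Qc := Qc) (X := X (max K' K₂)) (PB := fun B => B = n + 2)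
    (h₁ := h) ⟨1, one_pos, fun q hq => hQ q 1 K₀ hq⟩
    (fun _ _ _ _ _ _ _ _ _ => inferInstanceAs (Subsingleton Unit))
    (fun q N M θ J F D A h1 i hi j hj => ((wBal.com (hWs₀ q N M θ J F D A h1).1) i hi j hj).2)
    (fun M' => grd_and hI' (fun q N M θ J F D A h1 h2 => by
      show W₀ q N M θ J F D A
      rw [hW₀]
      exact ⟨h1, h2⟩) ((hgrd H hpI hβ M').sub hsub) (hVc M'))
    (fun k hk M' => (exn k hk M').mono fun N θ q h1 => h1.setW
      (fun J F D A h2 => (hWs₀ q N M' θ J F D A h2).1) fun _ _ _ _ _ _ h2 => h2)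
    (fun W her hWs ok2 => by
      obtain ⟨C₃, hnf⟩ := nf_U hI' H.tmh.1 H.zc ((kitN H p K₀).kit.setW W her)
        (fun _ _ _ => rfl) (fun q => kit_inj H p K₀ q.k) (fun q => kit_cov H p K₀ q.k)
        (fun q => kit_rate H p K₀ q.k) (s₁ := s₁) (sh := sh) hK' hh hh1
        (fun ε' hε' => kit_row H K₀ hrow ε' hε') fcel
        (fun k hk M' => (exs k hk M').mono fun N θ q h1 => h1.setW
          (fun J F D A h2 => (hWs₀ q N M' θ J F D A (hWs q N M' θ J F D A h2)).1)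
          fun _ _ _ _ _ _ h2 => h2) ok2
      refine ⟨⟨C₃, fun C₁ hC₁ => ⟨n + 2, by omega, rfl, fun M' => hnf C₁ hC₁ (n + 2)
        (by have := hn; omega) M'⟩⟩, ?_⟩
      refine hext K₀ K' (max K' K₂) s₁ sh hK₀ hK' (le_max_left _ _) W her
        (fun q N M θ J F D A h1 => (hWs₀ q N M θ J F D A (hWs q N M θ J F D A h1)).1) ?_
      refine ext_C hI' H.tmh ((kitN H p K₀).kit.setW W her) hml fcel hK' (K₂ := K₂) (S₂ := S₂)
        hl₀ (fun q N M θ J F D A h1 => (hWs₀ q N M θ J F D A (hWs q N M θ J F D A h1)).2)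
        (be := fun q => P' (show Od n from q.k.2).2)
        (P := fun q => PW (show Od n from q.k.2).2) (fun q => hPW _)
        (fun q l hl _ a w h0 h1 h2 => kit_Lp H q hl a w h0 h1 h2) ?_
        (fun l hl h1 => kit_rgh H K₀ hPW (hrgh l hl h1)) ?_
      · refine ((hcon (1 / 32) (by norm_num)).and hI' (EvP.self _ one_pos)).mono
          fun q hq a w h1 h2 h3 h4 => ?_
        obtain ⟨hc1, hq⟩ := hq
        have hr := hq.is.r0
        change q.g ≤ w at h1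
        change w ≤ q.g + q.r / 16 at h2
        change q.g + q.r ≤ a at h3
        change a ≤ q.g + q.r + q.r / 16 at h4
        have h5 := hc1 a w (by linarith) (by linarith) (by linarith)
        have h6 : (kitN H p K₀).kit.L q l₀ = iso (dgN hn P P' (show Od n from q.k.2) l₀) := by
          show iso ((kitN H p K₀).Dg q l₀) = _
          rw [kit_dg H q l₀]
        have h7 := Pool.RTS.iso_le (dgN hn P P' (show Od n from q.k.2) l₀) a w
        show (kitN H p K₀).kit.L q l₀ a w + q.r / 32 ≤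
          bet (P' (show Od n from q.k.2).2) (cc hn (show Od n from q.k.2).1.1) l₀ a w
        rw [h6]
        linarith
      · exact ⟨C₄, fun C₁ hC₁ B _ hB M' => by
          subst hB
          exact (hnfc C₁ hC₁ M').mono fun N θ q h2 => h2.setW
            (fun J F D A h3 => (hWs₀ q N M' θ J F D A (hWs q N M' θ J F D A h3)).1)
            fun _ _ _ _ _ _ h3 => h3⟩)
  exact evX_false hI' (hX (max K' K₂)) H.ne H.tmh.1 _ hh1 hQc
    ((hP (max K' K₂)).monoK (le_max_left _ _)) hfact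

variable {H}

/-- **No boxes with ties, one coordinate has labels with gain**, from a local theorem with the joint
property `X`; the hypotheses on the boxes of the kinds are `Hy`. -/
theorem nok_CX {x' : ℝ} {X : ℕ → ℕ → ExtX} (hX : ∀ l₀ K', (X l₀ K').Mono)
    {PW : ℕ → List (Fin n) × Fin n → ℝ → ℝ → ℝ}
    (hPW : ∀ j, ThrOf (chsysB n none (P' j)) S (PW j)) {As : ℝ → ℕ → Od n → ℝ → Prop}
    {Qc : ℝ → ℝ → ℕ → CondN}
    (hQc : ∀ c β l₀, (Qc c β l₀).Cl (n - 1 + 1))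
    (hP : ∀ (K' : ℕ) (c β : ℝ) (l₀ : ℕ), 0 < c → 0 < β → l₀ < n - 1 →
      MicX (X l₀ K') (Qc c β l₀) (fun B => B = n + 2) (n - 1 + 1) K' h)
    (hQ : ∀ (c β : ℝ) (l₀ : ℕ) (o : Od n) (g : ℝ) (gam : ℕ → ℝ), 0 < c → 0 < β → l₀ < n - 1 →
      As c l₀ o g → β ≤ slN hn P P' o (n - 1) g - 1 →
      (∀ l, 1 ≤ l → l ≤ n - 1 + 1 → gam l = max 0 (slN hn P P' o (l - 1) g - 1)) →
      Qc c β l₀ (fun _ => 1) gam)
    {Hy : HypK (hTop := hTop) (hF := hF) (hρ := hρ) H (Fin (n - 1))}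
    (hHy : ∀ (l₀ : Fin (n - 1)) (p : ((H.nk hTop hF).chg hρ H.up).Par) (I : ℝ → BS p.cell → Prop),
      Hy l₀ p I → ExnI H p I ∧ ExsI H p I ∧ NfcI H p x' I)
    (hext : ∀ (l₀ : Fin (n - 1)) (p : ((H.nk hTop hF).chg hρ H.up).Par), AdP H p →
      ∀ {ι' : Type} (kd : p.cell.α → ι') (y : ι') (c β h' M : ℝ), 0 < c → 0 < β →
      Hy l₀ p (IsK p.cell kd c β h' M y) →
      ExtOf H p (IsK p.cell kd c β h' M y) (fun u => u ≠ (l₀ : ℕ) + 1) x' (X l₀))
    (hh : 0 < h) (hh1 : h ≤ 1) :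
    NoKd H (kpC H hTop hF hρ h PW As) Hy := by
  intro p hp κ kd y l₀ c β h₁ M hc hβ hK hy
  have hI' := isK_mono p.cell kd c β h₁ M y
  have hy' := hHy l₀ p _ hy
  refine cls_CX H (hX l₀) (hQc c β l₀) l₀.2 (fun K' => hP K' c β l₀ hc hβ l₀.2) hh hh1 hp hy'.1
    hy'.2.1 hy'.2.2 (hext l₀ p hp kd y c β h₁ M hc hβ hy) hc hβ (fun q ε K₀ hq => ?_)
    (fun ε' hε' => (hK.Φ ε' hε').mono fun q h1 => h1.row)
    (fun ε q hq => (hK.A ε q hq).2.1) hPW
    (fun l hl hl' ε' hε' => (hK.Φ ε' hε').mono fun q h1 => h1.rgh l hl hl')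
    (fun ε' hε' => (hK.Φ ε' hε').mono fun q h1 => h1.con) (DT := ⌊1 / c⌋₊)
    (((hK.Φ 1 one_pos).and hI' (EvP.self _ one_pos)).mono fun q h1 => h1.1.gnw.mono ?_)
  · obtain ⟨-, e2⟩ := gamS_tar H hq hβ K₀
    exact hQ c β l₀ _ q.g _ hc hβ l₀.2 (hK.A ε q hq).1 e2 fun l l1 l2 => gamS_kit H hq K₀ l1 l2
  · have h2 := (hK.A _ q h1.2).2.2
    refine Nat.le_floor ?_
    rw [le_div_iff₀ hc]
    exact h2

end Pool.PKG
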