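import Pool.Agent.H78.MIC.ConM
import Pool.Agent.H78.MIC.MicI

/-!
# The joint property with no claim about some coordinates

`XR4`: as `XP4`, the claim `no new thin labels` is made for the target and for the coordinates in
`Rn` only. `ext_R`: it holds for the cells of a kit whose labels have a label with gain of one
coordinate; only the target and the coordinates in `Rn` have to be rough.
-/

set_option autoImplicit false

namespace Pool.STAT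

open Finset MvPolynomial
open Pool.Agent.H49.Ent Pool.Agent.H32.Dense Pool.STK Pool.KS3 Pool.KA Pool.KSAT Pool.PB Pool.GEN
open Pool.K2S Pool.S6C
open Pool.CHT (bet TmH)
open Pool.CHB (chsysB)
open Pool.LBT (ThrOf)
open Pool.LEV (Law)
open Pool.STR (Affn Nw)
open Pool.RLV (TmN)
open Pool.BFL (Pb)
open Pool.P4 (GnL NBT NewLabT NFc1 gvT)
open Pool.STAT.CLO

/-- **The joint property of the cells**: no new thin labels of the target and of the coordinates in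
`Rn`. -/
def XR4 (K A : ℕ) (R Rn : ℕ → Prop) (x : ℝ) : ExtX :=
  fun B _ gam n J a₀ w₀ z M Q K' η' κ C₁ D q =>
    D.TmU J w₀ z κ q ∧ NFc1 D n z M B gam x C₁ q ∧
      ∃ U : GnL D, U.Ok n K J a₀ w₀ z M Q R C₁ q ∧
        ∀ l, 1 ≤ l → l ≤ n → (l = n ∨ Rn l) → ∀ i ≤ M, ∀ j ≤ M,
          ¬ NewLabT D U J a₀ w₀ z Q R i j l A K' η' q

theorem xR4_mono (K A : ℕ) (R Rn : ℕ → Prop) (x : ℝ) : (XR4 K A R Rn x).Mono := by
  refine ⟨?_⟩
  rintro B lam gam n J a₀ w₀ z M Q Q' K' K'' η η' κ κ' C₁ C₁' D q hq h1 h2 h3 h4 h5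
    ⟨k1, k2, U, k3, k4⟩
  exact ⟨k1.mono h4, nFc_mono k2 le_rfl h5, U, gnL_mono k3 h1 h5, fun l l1 l2 l3 i hi j hj h6 =>
    k4 l l1 l2 l3 i hi j hj (newLabT_mono hq.nonneg h1 h2 h3 h6)⟩

variable {Θ : Type*} {I : ℝ → Θ → Prop} {m n₀ : ℕ}

/-- **The joint property of the cells with a label with gain** of the coordinate `l₀`, the target and
the coordinates in `Rn` are rough. -/
theorem ext_R (hI : MonoI I) {S : PCl m} (hS : TmH S) (Kt : KitP m Θ n₀)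
    (hml : ∀ p, ∀ l < n₀ + 1, Kt.ml p l = 1) {T' : ℝ}
    (fcel : ∀ ε' : ℝ, 0 < ε' → EvP I fun p =>
      CellL (n₀ + 1) (Kt.L p) ε' T' (Kt.y p) (Kt.X p) (Kt.la p) (Kt.ml p))
    {K' s₁ : ℕ} {sh : ℕ → ℕ} (hK' : 1 ≤ K') {l₀ K₂ S₂ : ℕ} (hl₀ : l₀ < n₀)
    (hW : ∀ p N M θ (J : ℕ) (F : Fam m J) (D : GDat F) (A : F.Ω → Prop),
      Kt.W p N M θ J F D A → Kt.Wco l₀ K₂ S₂ p N M θ J F D A)
    {be P : Θ → List (Fin m) × Fin m → ℝ → ℝ → ℝ}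
    (hP : ∀ p, ThrOf (chsysB m none (be p)) S (P p))
    (hLβ : ∀ p, ∀ l < n₀, l ≠ l₀ → ∀ a w : ℝ, 0 ≤ w → w ≤ a → a ≤ 1 →
      Kt.L p l a w ≤ bet (be p) (Kt.cs p) l a w)
    (hgain : EvP I fun p => ∀ a w : ℝ, (Kt.y p).1 ≤ w → w ≤ (Kt.y p).1 + Kt.X p / 16 →
      (Kt.y p).1 + (Kt.y p).2 ≤ a → a ≤ (Kt.y p).1 + (Kt.y p).2 + Kt.X p / 16 →
      Kt.L p l₀ a w + Kt.X p / 32 ≤ bet (be p) (Kt.cs p) l₀ a w)
    {Rn : ℕ → Prop} (hRn : ∀ u, Rn u → u ≠ l₀ + 1)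
    (fiso : ∀ l ≤ n₀, l ≠ l₀ → (l = n₀ ∨ Rn (l + 1)) → ∀ ε' : ℝ, 0 < ε' → EvP I fun p => ∀ z : ℝ × ℝ,
      dist z (Kt.y p) ≤ Kt.X p →
      Nw (bet (P p) (Kt.cs p) l) z ≤ Nw (Kt.L p l) z + ε' * Kt.X p)
    {PB : ℕ → Prop} {x' : ℝ}
    (hnfc : ∃ C₄ : ℝ, ∀ C₁ ≥ C₄, ∀ B : ℕ, 1 ≤ B → PB B → ∀ M : ℕ, EvQ I fun N θ p =>
      Kt.FldN S K' s₁ sh M N θ p fun G J F D q => ∀ gam' : ℕ → ℝ, 0 ≤ gam' (n₀ + 1) →
        |gamS (n₀ + 1) (Kt.la p) (Kt.ml p) (n₀ + 1) - gam' (n₀ + 1)| * M ≤ 1 →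
        NFc1 (Kt.nd p N M θ G F D) G.n (up G.ζ J) G.M B gam' x' C₁ q) :
    ∃ C₄ : ℝ, ∀ C₁ ≥ C₄, ∀ B : ℕ, 1 ≤ B → PB B → ∀ (M Q K'' : ℕ) (η' κ : ℝ), 0 < η' → 0 < κ →
      EvQ I fun N θ p => Kt.FldN S K' s₁ sh M N θ p fun G J F D q =>
        (XR4 (max K' K₂) 1 (fun u => u ≠ l₀ + 1) Rn x').nb B (lamS (n₀ + 1) (Kt.ml p))
          (gamS (n₀ + 1) (Kt.la p) (Kt.ml p)) G.n J (up G.α J) (up G.ϖ J) (up G.ζ J) G.M Q K'' η'
          κ C₁ (Kt.nd p N M θ G F D) q := by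
  obtain ⟨C₄, hnfc⟩ := hnfc
  refine ⟨max C₄ (S₂ + 1), fun C₁ hC₁ B hB hPB M Q K'' η' κ hη hκ => ?_⟩
  have c4 : C₄ ≤ C₁ := (le_max_left _ _).trans hC₁
  have cS : (S₂ : ℝ) + 1 ≤ C₁ := (le_max_right _ _).trans hC₁
  obtain ⟨Λ, hΛ⟩ := exists_nat_ge (T' + 3)
  obtain ⟨V, hV⟩ := exists_nat_ge (4 * T' + 2)
  obtain ⟨E, hE, hch⟩ := co_chain (n₀ + 1) K' K₂ K'' S₂ hK'
  obtain ⟨Ee, hEe⟩ : ∃ Ee, Ee = E ^ (n₀ + 1 + 1) := ⟨_, rfl⟩
  have hEe1 : 1 ≤ Ee := by rw [hEe]; exact Nat.one_le_pow _ _ hE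
  obtain ⟨Sm, hSm⟩ : ∃ Sm, ∀ k ≤ n₀ + 1, sh k ≤ Sm :=
    ⟨∑ k ∈ range (n₀ + 2), sh k, fun k hk => Finset.single_le_sum (f := sh)
      (fun _ _ => Nat.zero_le _) (mem_range.2 (by omega))⟩
  obtain ⟨N₁, hN₁⟩ := exists_nat_ge (4 * (T' + 2))
  obtain ⟨N₂, hN₂⟩ := exists_nat_ge (8 * ((1 : ℕ) + 2) * (T' + 2))
  obtain ⟨N₀, hN₀⟩ : ∃ N₀, N₀ = max (max N₁ N₂) (max (64 * (2 * Q + 3)) 1) := ⟨_, rfl⟩
  obtain ⟨θ₀, hθ₀⟩ : ∃ θ₀ : ℝ, θ₀ = min (1 / (128 * ((V : ℝ) + 1))) (1 / (512 * (Ee : ℝ))) := ⟨_, rfl⟩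
  have hEe0 : (0 : ℝ) < Ee := by exact_mod_cast hEe1
  have hθ₀0 : 0 < θ₀ := by rw [hθ₀]; exact lt_min (by positivity) (by positivity)
  have hεp : ∀ N : ℕ, (0 : ℝ) < 1 / (512 * (V + 1) * (N * (M + 4)) + 1) := fun N => by positivity
  have fiso' : EvQ I fun N θ p => ∀ l < n₀ + 1, l ≠ l₀ → (l = n₀ ∨ Rn (l + 1)) → ∀ z : ℝ × ℝ,
      dist z (Kt.y p) ≤ Kt.X p → Nw (bet (P p) (Kt.cs p) l) z ≤
        Nw (Kt.L p l) z + 1 / (512 * (V + 1) * (N * (M + 4)) + 1) * Kt.X p :=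
    EvQ.of_evP fun N => evP_lt hI (n₀ + 1) fun l hl => by
      by_cases h : l = l₀
      · exact ⟨1, one_pos, fun _ _ h' => absurd h h'⟩
      by_cases h2 : l = n₀ ∨ Rn (l + 1)
      · exact (fiso l (by omega) h h2 _ (hεp N)).mono fun _ hp _ _ => hp
      · exact ⟨1, one_pos, fun _ _ _ h' => absurd h' h2⟩
  have hcel : EvQ I fun N θ p => CellL (n₀ + 1) (Kt.L p)
      (1 / (512 * (V + 1) * (N * (M + 4)) + 1)) T' (Kt.y p) (Kt.X p) (Kt.la p) (Kt.ml p) :=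
    EvQ.of_evP fun N => fcel _ (hεp N)
  have key := ((((tmU_P hI hS Kt fcel (K' := K') (s₁ := s₁) (sh := sh) hκ M).and hI
    (hnfc C₁ c4 B hB hPB M)).and hI (hcel.and hI fiso')).and hI
    ((EvQ.of_evP fun _ => hgain).and hI (iso_num hI Kt hml fcel hΛ sh 0 0 M one_pos))).and hI
    (EvQ.self I N₀ (θ₀ := θ₀) hθ₀0 (ε := fun N _ => 1) (fun N _ _ => one_pos))
  refine key.mono ?_
  rintro N θ p ⟨⟨⟨⟨ptm, pnfc⟩, hL, hPW⟩, pg, -, hζ0, hnum⟩, hN, hθ, hθ1, -⟩ b e hnear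
  obtain ⟨ε, hε⟩ : ∃ ε : ℝ, ε = 1 / (512 * (V + 1) * (N * (M + 4)) + 1) := ⟨_, rfl⟩
  rw [← hε] at hL hPW
  have hε0 : 0 < ε := by rw [hε]; exact hεp N
  have hNN1 : N₁ ≤ N := (by rw [hN₀]; exact (le_max_left _ _).trans (le_max_left _ _) :
    N₁ ≤ N₀).trans hN
  have hNN2 : N₂ ≤ N := (by rw [hN₀]; exact (le_max_right _ _).trans (le_max_left _ _) :
    N₂ ≤ N₀).trans hN
  have hNQ : 64 * (2 * Q + 3) ≤ N := (by
    rw [hN₀]
    exact (le_max_left _ _).trans (le_max_right _ _) : 64 * (2 * Q + 3) ≤ N₀).trans hN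
  have hN1 : 1 ≤ N := (by rw [hN₀]; exact (le_max_right _ _).trans (le_max_right _ _) :
    1 ≤ N₀).trans hN
  have hNT : 4 * (T' + 2) ≤ N := hN₁.trans (by exact_mod_cast hNN1)
  have hNC : 8 * ((1 : ℕ) + 2) * (T' + 2) ≤ (N : ℝ) := hN₂.trans (by exact_mod_cast hNN2)
  have hV0 : (0 : ℝ) ≤ V := Nat.cast_nonneg V
  have hθV : θ ≤ 1 / (128 * (V + 1)) := hθ1.trans (by rw [hθ₀]; exact min_le_left _ _)
  have hθE : 512 * (Ee : ℝ) * θ ≤ 1 := by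
    have h1 : θ ≤ 1 / (512 * Ee) := hθ1.trans (by rw [hθ₀]; exact min_le_right _ _)
    rw [le_div_iff₀ (by positivity)] at h1
    linarith only [h1]
  have hθ16 : θ ≤ 1 / 16 := by
    refine hθV.trans (one_div_le_one_div_of_le (by norm_num) ?_)
    linarith only [hV0]
  have hX := hL.pos
  obtain ⟨ζ', hζ'⟩ : ∃ ζ', ζ' = msh (Kt.X p) N M / (8 * (V + 1)) := ⟨_, rfl⟩
  have hζ'0 : 0 < ζ' := by rw [hζ']; positivity
  have hζ'm : ζ' * (8 * (V + 1)) = msh (Kt.X p) N M := by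
    rw [hζ']
    field_simp
  have hζ'1 : ζ' ≤ msh (Kt.X p) N M := by
    have := mul_nonneg hζ'0.le hV0
    linarith only [hζ'm, this, hζ'0]
  have hεX : ε * Kt.X p ≤ ζ' / 64 := by
    have h1 : ε ≤ 1 / (512 * (V + 1) * (N * (M + 4)) + 1) := by rw [hε]
    rw [le_div_iff₀ (by positivity)] at h1
    have e1 : N * ((M + 4) * msh (Kt.X p) N M) = Kt.X p := msh_mul hN1
    have h2 : ε * (512 * (V + 1) * (N * (M + 4))) ≤ 1 := by linarith only [h1, hε0]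
    have h3 := mul_le_mul_of_nonneg_right h2 hζ'0.le
    have h4 : ε * (512 * (V + 1) * (N * (M + 4))) * ζ' =
        64 * (ε * (N * ((M + 4) * (ζ' * (8 * (V + 1)))))) := by ring
    rw [h4, hζ'm, e1] at h3
    linarith only [h3]
  have hθx : θ * msh (Kt.X p) N M ≤ ζ' / 16 := by
    rw [le_div_iff₀ (by positivity)] at hθV
    have h3 := mul_le_mul_of_nonneg_right hθV hζ'0.le
    have h4 : θ * (128 * (V + 1)) * ζ' = 16 * (θ * (ζ' * (8 * (V + 1)))) := by ring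
    rw [h4, hζ'm] at h3
    linarith only [h3]
  obtain ⟨J₁, hJ₁⟩ := hnum b e hnear
  obtain ⟨Q', J₂, hJ₂⟩ := co_num (V := V) (Q := Q) (Ee := Ee) (Sm := Sm) hL hN1 hNQ hθ hθ16
    hθE hnear
  obtain ⟨Kn, hKn⟩ : ∃ Kn, Kn = max (max K' K₂) K'' := ⟨_, rfl⟩
  obtain ⟨yy, hyy⟩ : ∃ yy : ℕ → ℝ, yy = fun k => if k = l₀ then Kt.X p / 64 else 0 := ⟨_, rfl⟩
  have yy0 : ∀ k, 0 ≤ yy k := fun k => by
    rw [hyy]
    beta_reduce
    split_ifs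
    · positivity
    · exact le_rfl
  have yyX : ∀ k, yy k ≤ Kt.X p / 64 := fun k => by
    rw [hyy]
    beta_reduce
    split_ifs
    · exact le_rfl
    · positivity
  have hno : Bas S fun J F A => ∀ l < n₀ + 1, l ≠ l₀ → (l = n₀ ∨ Rn (l + 1)) → ∀ B : F.Ω → Prop, Sub B A →
      η' * Pe F.p A ≤ Pe F.p B →
      ∀ i ≤ M, ∀ j ≤ M, ∀ μ : ℕ, up ζ' J ≤ μ →
      μ ≤ 1 * up (msh (Kt.X p) N M) J → ∀ (e' : ℕ) (g' : ℕ → ℕ),
      (∀ k' < l, g' k' ≤ ⌊b i j k' * J⌋₊ + 4 * μ + ⌊yy k' * J⌋₊) →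
      ⌊b i j l * J⌋₊ + V * μ ≤ g' l →
      g' l ≤ J → ¬ ChN F (Kt.cs p) (l + 1) (fun _ => Kn)
        (up ((Kt.y p).1 + (Kt.y p).2) J + i * up (msh (Kt.X p) N M) J + 4 * μ)
        (up (Kt.y p).1 J + j * up (msh (Kt.X p) N M) J + 4 * μ) e' g' B := by
    refine Bas.all (n₀ + 1) fun l hl => ?_
    by_cases h : l = l₀
    · exact ⟨1, one_pos, 0, fun J _ F A _ h' => absurd h h'⟩
    by_cases h' : l = n₀ ∨ Rn (l + 1)
    swap
    · exact ⟨1, one_pos, 0, fun J _ F A _ _ h'' => absurd h'' h'⟩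
    · refine Bas.mono 0 (Pool.LBK.Bas.ev (hL.no_sh (by omega) hN1 hNT hNC hζ'0 hζ'1 hεX
        hθx hnear (hP p) (hPW l hl h h') (yy := yy) (fun k _ => yy0 k)
        (fun k _ => (yyX k).trans (by linarith only [hX])) (fun k' hk' a w h1 h2 h3 h4 => ?_) hV
        Kn) hη) fun J _ F A h3 _ _ => h3
      by_cases hk : k' = l₀
      · rw [hk]
        have h5 := pg a w h1 h2 h3 h4
        have h6 := yyX l₀
        linarith only [h5, h6, hX]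
      · have h5 : yy k' = 0 := by
          rw [hyy]
          exact if_neg hk
        rw [h5, add_zero]
        exact hLβ p k' (by omega) hk a w (by linarith only [hL.win, h1, hX])
          (by linarith only [hL.dep, h2, h3, hX]) (by linarith only [hL.top, h4, hX])
  have hp : Bas S (fun _ F A => 0 < Pe F.p A) :=
    ⟨1, one_pos, 0, fun J _ F A hA => hS.1 1 J F A hA⟩
  refine Bas.mono (max J₁ J₂) (Bas.and (Bas.and (ptm b e hnear) (pnfc b e hnear))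
    (Bas.and hno hp)) ?_
  rintro J hJ F A ⟨⟨m1, m2⟩, hno, hA⟩ D hD lam' gam' _ k2 _ k4
  obtain ⟨-, -, -, -, -, -, -, -, -, c10⟩ := hJ₁ J ((le_max_left _ _).trans hJ)
  obtain ⟨d1, d2, d3, d4, d5, d6, d7, d8, d9, d10, d11⟩ := hJ₂ J ((le_max_right _ _).trans hJ)
  rw [← hζ'] at d4 d10
  obtain ⟨gC, pr, UD, UL, hband, hpr, hCo⟩ := hW p N M θ J F D A hD.2
  have hDo : D.Ok (Kt.cs p) (n₀ + 1) Kt.K K' s₁ sh (up ((Kt.y p).1 + (Kt.y p).2) J)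
      (up (Kt.y p).1 J) (up (msh (Kt.X p) N M) J) M (fun i j => ⌊e i j * J⌋₊)
      (fun i j l => ⌊b i j l * J⌋₊) A := hD.1
  have hX3264 : ⌊Kt.X p / 64 * (J : ℝ)⌋₊ ≤ ⌊Kt.X p / 32 * (J : ℝ)⌋₊ := by
    refine Nat.floor_le_floor (mul_le_mul_of_nonneg_right ?_ (Nat.cast_nonneg J))
    linarith only [hX]
  have hq0 := cond_nonneg F.isLaw.nonneg A True
  have hqB : ∀ ω, 0 < Pool.Agent.H49.Ent.cond F.p A True ω → A ω :=
    fun ω hω => Pool.PB.End.of_cond_pos hω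
  have hbx : ∀ i ≤ M, ∀ j ≤ M, ∀ k < l₀, gC i j k ≤ ⌊b i j k * J⌋₊ - sh (k + 1) +
      3 * up (16 * θ * msh (Kt.X p) N M) J := by
    intro i hi j hj k hk
    have h1 := (hband i hi j hj k (by omega)).1
    have h2 := (c10 i hi j hj k (by omega)).2
    have h3 := hSm (k + 1) (by omega)
    omega
  have hnr : ∀ i ≤ M, ∀ j ≤ M, ⌊b i j l₀ * J⌋₊ - sh (l₀ + 1) ≤
      gC i j l₀ + up (16 * θ * msh (Kt.X p) N M) J := by
    intro i hi j hj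
    have h1 := (hband i hi j hj l₀ (by omega)).2
    have h2 := (c10 i hi j hj l₀ (by omega)).1
    omega
  have hprg : ∀ i ≤ M, ∀ j ≤ M, ⌊b i j l₀ * J⌋₊ - sh (l₀ + 1) + ⌊Kt.X p / 64 * J⌋₊ ≤ pr := by
    intro i hi j hj
    have h1 := hpr i hi j hj
    have h2 := (c10 i hi j hj l₀ (by omega)).1
    omega
  refine ⟨m1 D hD, m2 D hD gam' (k2 _) (k4 (n₀ + 1) (by omega) le_rfl),
    gnC (Kt.nd p N M θ (Kt.grid K' s₁ sh p N M θ b e) F D) l₀ pr UD UL, ?_, ?_⟩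
  · exact co_gn (Kt.rc p N M θ J F D) hK' hDo hCo hqB (Nat.lt_succ_of_lt hl₀)
      (le_max_right _ _) d3 cS hbx hnr fun i hi j hj => (Nat.add_le_add_left d8 _).trans (hprg i hi j hj)
  · intro u u1 u2 u3 i hi j hj hnew
    obtain ⟨l, rfl⟩ : ∃ l, u = l + 1 := ⟨u - 1, by omega⟩
    have hi' : i ≤ M := hi
    have hj' : j ≤ M := hj
    have hl : l < n₀ + 1 := Nat.lt_of_succ_le u2
    have hll : l ≠ l₀ := by
      rcases u3 with h1 | h1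
      · have h2 : l + 1 = n₀ + 1 := h1
        omega
      · have := hRn _ h1
        omega
    have hlR : l = n₀ ∨ Rn (l + 1) := by
      rcases u3 with h1 | h1
      · have h2 : l + 1 = n₀ + 1 := h1
        exact Or.inl (by omega)
      · exact Or.inr h1
    obtain ⟨B', e', b1, b2, b3⟩ := hch (Kt.rc p N M θ J F D) (Q' := Q') hDo hCo hq0 hqB d2 hi' hj'
      (by
        have h1 : j * up (msh (Kt.X p) N M) J ≤ M * up (msh (Kt.X p) N M) J :=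
          Nat.mul_le_mul_right _ hj'
        omega) hl (by omega) hll d6 (hbx i hi' j hj') (hnr i hi' j hj')
      ((Nat.add_le_add_left d7 _).trans (hprg i hi' j hj')) (fun k k1 k2 => by
        have h1 := (d11 i hi' j hj' (k - 1) (by omega)).1
        have h2 := hSm k (by omega)
        rw [← hEe]
        omega) hnew
    have hPB' : η' * Pe F.p A ≤ Pe F.p B' := by
      have h5 := Pool.LBK.Pb_cond_sub b1 hA
      have h6 := mul_le_mul_of_nonneg_right b2 hA.le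
      rw [h5] at h6
      exact h6
    have h1J := d11 i hi' j hj' l hl
    have hEl : E ^ (l + 2) * up (16 * θ * msh (Kt.X p) N M) J ≤
        Ee * up (16 * θ * msh (Kt.X p) N M) J := by
      rw [hEe]
      exact Nat.mul_le_mul_right _ (Nat.pow_le_pow_right hE (by omega))
    have hSl := hSm (l + 1) (by omega)
    refine hno l hl hll hlR B' b1 hPB' i hi' j hj' (up ζ' J) le_rfl (by rw [one_mul]; exact d4) e'
      _ (fun k' hk' => ?_) ?_ ?_ (b3.mono le_rfl (fun _ _ => le_of_eq hKn.symm)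
        (Nat.le_add_right _ _) (Nat.le_add_right _ _) ?_ le_rfl)
    · unfold gvT
      rw [if_pos hk']
      by_cases hk : k' = l₀
      · rw [hk, if_neg (by simp)]
        have h3 : ⌊yy l₀ * (J : ℝ)⌋₊ = ⌊Kt.X p / 64 * (J : ℝ)⌋₊ := by
          rw [hyy]
          simp
        rw [h3]
        show ⌊b i j (l₀ + 1 - 1) * (J : ℝ)⌋₊ - sh (l₀ + 1) + Q' * _ - _ ≤ _
        rw [Nat.add_sub_cancel]
        omega
      · rw [if_pos (by simpa using hk)]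
        show ⌊b i j (k' + 1 - 1) * (J : ℝ)⌋₊ - sh (k' + 1) - _ ≤ _
        rw [Nat.add_sub_cancel]
        omega
    · unfold gvT
      rw [if_neg (lt_irrefl l)]
      omega
    · unfold gvT
      rw [if_neg (lt_irrefl l)]
      omega
    · have h1 : j * up (msh (Kt.X p) N M) J ≤ M * up (msh (Kt.X p) N M) J :=
        Nat.mul_le_mul_right _ hj'
      omega

end Pool.STAT
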