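import Pool.Agent.H78.MIC.ClsG
import Pool.Agent.H78.TT.SlpF
import Pool.Agent.H14.P4J.ClsX
import Pool.Agent.H14.P4J.ExtR

/-!
# No boxes with ties, one coordinate has a label with gain, no claim about some coordinates

`cls_R`: as `cls_CX`, only the target, the coordinates before the one with gain and the coordinates in
a set `Rs` are rough. `kpR2`: the kinds, `kpR2_at`: windows of these kinds, `nok_R2`: no boxes, from a
local theorem with a joint property `X` which follows from `XR4`.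
-/

set_option autoImplicit false

namespace Pool.PKG

open MeasureTheory Set Filter Topology
open Pool.Agent.H49.Ent Pool.Agent.H32.Dense Pool.STK Pool.KA Pool.KSAT Pool.K2S Pool.PB
open Pool.GEN Pool.S6C Pool.STAT Pool.CHT Pool.GRW Pool.ONE Pool.STA
open Pool.LBT (LSys ThrOf)
open Pool.LEV (Law Lv)
open Pool.ALL (RateOf)
open Pool.TOP (TopS)
open Pool.RTS (iso Diag)
open Pool.STR (NumI CellD RowD NfB AffB Rle Nw)
open Pool.ISO (ChI)
open Pool.CHB (chsysB)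
open Pool.STAT.CLO Pool.MIC6
open Pool.P4 (NFc1)

variable {n : ℕ} {hn : 2 ≤ n} {S : PCl n} {P : ℝ → ℝ → ℝ} {rr : ℝ → ℝ}
  {P' : ℕ → List (Fin n) × Fin n → ℝ → ℝ → ℝ} {Λ : Finset (Fin n) → Fin n → ℝ → ℝ → ℝ}
  {PB : ℕ → List (Fin n) × Fin n → ℝ → ℝ → ℝ}
  (H : PkT hn S P rr P' Λ PB) {hTop : TopS n} {hF : FZX (n - 1)} {h : ℝ}
  {ρ' : ℝ → ℝ} {hρ : Rle rr ρ'}

/-- **The joint property `X K₄` follows from `XR4`** on the cells of a family of boxes. -/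
def ExtOfR (p : ((H.nk hTop hF).chg hρ H.up).Par) (I : ℝ → BS p.cell → Prop) (R Rn : ℕ → Prop)
    (x' : ℝ) (X : ℕ → ExtX) : Prop :=
  ∀ (K₀ K' K₄ s₁ : ℕ) (sh : ℕ → ℕ), 1 ≤ K₀ → 1 ≤ K' → K' ≤ K₄ →
    ∀ (W : BS p.cell → ℕ → ℕ → ℝ → GrdP n) (her : ∀ q N M' θ, (W q N M' θ).Her),
    (∀ q N M' θ (J : ℕ) (F : Fam n J) (D : GDat F) (A : F.Ω → Prop),
      W q N M' θ J F D A → (kitN H p K₀).kit.W q N M' θ J F D A) →
    (∃ C₄ : ℝ, ∀ C₁ ≥ C₄, ∀ B : ℕ, 1 ≤ B → B = n + 2 → ∀ (M' Q K'' : ℕ) (η' κ : ℝ), 0 < η' →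
      0 < κ → EvQ I fun N θ q =>
        ((kitN H p K₀).kit.setW W her).FldN S K' s₁ sh M' N θ q
        fun G J F D q' => (XR4 K₄ 1 R Rn x').nb B (lamS (n - 1 + 1) ((kitN H p K₀).kit.ml q))
          (gamS (n - 1 + 1) ((kitN H p K₀).kit.la q) ((kitN H p K₀).kit.ml q)) G.n J (up G.α J)
          (up G.ϖ J) (up G.ζ J) G.M Q K'' η' κ C₁
          (((kitN H p K₀).kit.setW W her).nd q N M' θ G F D) q') →
    ∃ C₄ : ℝ, ∀ C₁ ≥ C₄, ∀ B : ℕ, 1 ≤ B → B = n + 2 → ∀ (M' Q K'' : ℕ) (η' κ : ℝ), 0 < η' →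
      0 < κ → EvQ I fun N θ q =>
        ((kitN H p K₀).kit.setW W her).FldN S K' s₁ sh M' N θ q
        fun G J F D q' => (X K₄).nb B (lamS (n - 1 + 1) ((kitN H p K₀).kit.ml q))
          (gamS (n - 1 + 1) ((kitN H p K₀).kit.la q) ((kitN H p K₀).kit.ml q)) G.n J (up G.α J)
          (up G.ϖ J) (up G.ζ J) G.M Q K'' η' κ C₁
          (((kitN H p K₀).kit.setW W her).nd q N M' θ G F D) q'

/-- **No boxes of a kind with ties, one coordinate has a label with gain**: `x'` is the deficit of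
the closed rows, `Qc` a condition for the slopes, `X` the joint property, `Rs` the set of rough
coordinates. -/
theorem cls_R {x' : ℝ} {X : ℕ → ExtX} (hX : ∀ K', (X K').Mono) {Qc : CondN}
    (hQc : Qc.Cl (n - 1 + 1)) {l₀ : ℕ} (hl₀ : l₀ < n - 1)
    {Rs : ℕ → Prop}
    (hP : ∀ K' : ℕ, MicX (X K') Qc (fun B => B = n + 2) (n - 1 + 1) K' h)
    (hh : 0 < h) (hh1 : h ≤ 1) {p : ((H.nk hTop hF).chg hρ H.up).Par} (hpI : AdP H p)
    {ι : Type} {kd : p.cell.α → ι} {c β h' M : ℝ} {x : ι}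
    (hexn : ExnI H p (IsK p.cell kd c β h' M x)) (hexs : ExsI H p (IsK p.cell kd c β h' M x))
    (hnfc : NfcI H p x' (IsK p.cell kd c β h' M x))
    (hext : ExtOfR H p (IsK p.cell kd c β h' M x) (fun u => u ≠ l₀ + 1)
      (fun u => u ≠ l₀ + 1 ∧ Rs (u - 1)) x' X)
    (hc : 0 < c) (hβ : 0 < β)
    (hQ : ∀ q ε K₀, IsK p.cell kd c β h' M x ε q → Qc (fun _ => 1)
      (gamS (n - 1 + 1) ((kitN H p K₀).kit.la q) ((kitN H p K₀).kit.ml q)))
    (hrow : ∀ ε' : ℝ, 0 < ε' → EvP (IsK p.cell kd c β h' M x) fun q =>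
      NfB rr h (ε' * q.r) (P q.g q.g - q.r) (P q.g q.g + 3 * q.r))
    (hsrt : ∀ ε q, IsK p.cell kd c β h' M x ε q → ∀ k < n - 1, ∀ k' < k,
      dgN hn P P' (show Od n from q.k.2) k' q.g ≤ dgN hn P P' (show Od n from q.k.2) k q.g)
    {PW : ℕ → List (Fin n) × Fin n → ℝ → ℝ → ℝ}
    (hPW : ∀ j, ThrOf (chsysB n none (P' j)) S (PW j))
    (hrgh : ∀ l ≤ n - 1, l ≠ l₀ → (l < l₀ ∨ (l = n - 1 ∨ Rs l)) → ∀ ε' : ℝ, 0 < ε' → EvP (IsK p.cell kd c β h' M x) fun q =>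
      Box7 q.g q.r fun a w => bet (PW (show Od n from q.k.2).2)
        (cc hn (show Od n from q.k.2).1.1) l a w ≤
          dgN hn P P' (show Od n from q.k.2) l w + (a - w) + ε' * q.r)
    (hcon : ∀ ε' : ℝ, 0 < ε' → EvP (IsK p.cell kd c β h' M x) fun q =>
      Box7 q.g q.r fun a w => dgN hn P P' (show Od n from q.k.2) l₀ w + 2 * (a - w) ≤
        bet (P' (show Od n from q.k.2).2) (cc hn (show Od n from q.k.2).1.1) l₀ a w + ε' * q.r)
    {DT : ℕ} (hgn : EvP (IsK p.cell kd c β h' M x) fun q =>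
      GnW hn S P P' (show Od n from q.k.2) DT l₀ q.g q.r) :
    EvP (IsK p.cell kd c β h' M x) fun _ => False := by
  obtain ⟨K₀, K', s₁, sh, hK₀, hK', hgrd⟩ := cls_grd n hc
  have hI' := isK_mono p.cell kd c β h' M x
  have hsub := isK_sub p.cell kd c β h' M x
  have hlt := cls_hlt H hpI (c := c) (β := β) (hh := h') (M := M)
  have exn : ∀ k : ℝ, 0 < k → ∀ M' : ℕ, EvQ (IsK p.cell kd c β h' M x) fun N θ q =>
      (kitN H p K₀).kit.FldN S K' s₁ sh M' N θ q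
        fun G J F D q' => OKI.ExN D G.c G.n G.sh ((kitN H p K₀).kit.rc q N M' θ J F D)
          (up G.ϖ J) (up G.ζ J) G.M (G.gn J) (k * up G.ζ J) q' := hexn K₀ K' s₁ sh hK₀ hK'
  have exs : ∀ k : ℝ, 0 < k → ∀ M' : ℕ, EvQ (IsK p.cell kd c β h' M x) fun N θ q =>
      (kitN H p K₀).kit.FldN S K' s₁ sh M' N θ q
        fun G J F D q' => ExS D G.c G.n G.sh G.M (G.gn J) (k * up G.ζ J) q' :=
    hexs K₀ K' s₁ sh hK₀ hK'
  obtain ⟨C₄, hnfc⟩ := hnfc K₀ K' s₁ sh hK₀ hK'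
  have fcel := kit_cel H hpI (kd := kd) (h' := h') (M := M) hc hβ x K₀
  have hml : ∀ (q : BS p.cell), ∀ l < n - 1 + 1, (kitN H p K₀).kit.ml q l = 1 := fun _ _ _ => rfl
  -- the label with gain
  obtain ⟨S₂, hVc⟩ := hV_con hI' H.tmh (kitN H p K₀).kit hml (fun q => kit_inj H p K₀ q.k)
    (s₁ := s₁) (sh := sh) hK' fcel (be := fun q => P' (show Od n from q.k.2).2)
    (P := fun q => PW (show Od n from q.k.2).2) (fun q => hPW _) (l := l₀) (by omega)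
    (fun q k hk a w h0 h1 h2 => kit_Lp H q (by omega) a w h0 h1 h2)
    (fun k hk => kit_rgh H K₀ hPW (hrgh k (by omega) (by omega) (Or.inl hk)))
    (kit_srt H K₀ hsrt hl₀) (DT := DT) (hgn.mono fun q h1 => by
      obtain ⟨aT, wT, eT, β', K₁, k1, k2, k3⟩ := h1
      refine ⟨aT, wT, eT, β', K₁, k1, ?_, k3⟩
      have e1 : (kitN H p K₀).kit.L q = fun k => iso (dgN hn P P' (show Od n from q.k.2) k) := by
        funext k
        show iso ((kitN H p K₀).Dg q k) = _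
        rw [kit_dg H q k]
      rw [e1]
      exact k2)
  obtain ⟨K₂, hK₂⟩ : ∃ K₂, K₂ = max (kitN H p K₀).kit.K DT := ⟨_, rfl⟩
  rw [← hK₂] at hVc
  obtain ⟨W₀, hW₀⟩ : ∃ W₀ : BS p.cell → ℕ → ℕ → ℝ → GrdP n, W₀ = fun q N M θ J F D A =>
      (kitN H p K₀).kit.W q N M θ J F D A ∧
        (kitN H p K₀).kit.Wco l₀ K₂ S₂ q N M θ J F D A := ⟨_, rfl⟩
  have her₀ : ∀ q N M θ, (W₀ q N M θ).Her := by
    intro q N M θ
    rw [hW₀]
    exact GrdP.Her.and ((kitN H p K₀).kit.her q N M θ) ((kitN H p K₀).kit.wco_her l₀ K₂ S₂ q N M θ)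
  have hWs₀ : ∀ q N M θ (J : ℕ) (F : Fam n J) (D : GDat F) (A : F.Ω → Prop),
      W₀ q N M θ J F D A → (kitN H p K₀).kit.W q N M θ J F D A ∧
        (kitN H p K₀).kit.Wco l₀ K₂ S₂ q N M θ J F D A := by
    intro q N M θ J F D A h1
    rw [hW₀] at h1
    exact h1
  obtain ⟨W, her, hfact⟩ := factIN H.tmh ((kitN H p K₀).setW W₀ her₀) (kit_inj H p K₀) (K' := K')
    (s₁ := s₁) (sh := sh) hK' hc hβ (cls_hP H) (cls_hD H) hlt hI' hsub
    (Qc := Qc) (X := X (max K' K₂)) (PB := fun B => B = n + 2)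
    (h₁ := h) ⟨1, one_pos, fun q hq => hQ q 1 K₀ hq⟩
    (fun _ _ _ _ _ _ _ _ _ => inferInstanceAs (Subsingleton Unit))
    (fun q N M θ J F D A h1 i hi j hj => ((wBal.com (hWs₀ q N M θ J F D A h1).1) i hi j hj).2)
    (fun M' => grd_and hI' (fun q N M θ J F D A h1 h2 => by
      show W₀ q N M θ J F D A
      rw [hW₀]
      exact ⟨h1, h2⟩) ((hgrd H hpI hβ M').sub hsub) (hVc M'))
    (fun k hk M' => (exn k hk M').mono fun N θ q h1 => h1.setW
      (fun J F D A h2 => (hWs₀ q N M' θ J F D A h2).1) fun _ _ _ _ _ _ h2 => h2)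
    (fun W her hWs ok2 => by
      obtain ⟨C₃, hnf⟩ := nf_U hI' H.tmh.1 H.zc ((kitN H p K₀).kit.setW W her)
        (fun _ _ _ => rfl) (fun q => kit_inj H p K₀ q.k) (fun q => kit_cov H p K₀ q.k)
        (fun q => kit_rate H p K₀ q.k) (s₁ := s₁) (sh := sh) hK' hh hh1
        (fun ε' hε' => kit_row H K₀ hrow ε' hε') fcel
        (fun k hk M' => (exs k hk M').mono fun N θ q h1 => h1.setW
          (fun J F D A h2 => (hWs₀ q N M' θ J F D A (hWs q N M' θ J F D A h2)).1)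
          fun _ _ _ _ _ _ h2 => h2) ok2
      refine ⟨⟨C₃, fun C₁ hC₁ => ⟨n + 2, by omega, rfl, fun M' => hnf C₁ hC₁ (n + 2)
        (by have := hn; omega) M'⟩⟩, ?_⟩
      refine hext K₀ K' (max K' K₂) s₁ sh hK₀ hK' (le_max_left _ _) W her
        (fun q N M θ J F D A h1 => (hWs₀ q N M θ J F D A (hWs q N M θ J F D A h1)).1) ?_
      refine ext_R hI' H.tmh ((kitN H p K₀).kit.setW W her) hml fcel hK' (K₂ := K₂) (S₂ := S₂)
        hl₀ (fun q N M θ J F D A h1 => (hWs₀ q N M θ J F D A (hWs q N M θ J F D A h1)).2)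
        (be := fun q => P' (show Od n from q.k.2).2)
        (P := fun q => PW (show Od n from q.k.2).2) (fun q => hPW _)
        (fun q l hl _ a w h0 h1 h2 => kit_Lp H q hl a w h0 h1 h2) ?_
        (Rn := fun u => u ≠ l₀ + 1 ∧ Rs (u - 1)) (fun u hu => hu.1)
        (fun l hl h1 h2 => kit_rgh H K₀ hPW (hrgh l hl h1 (Or.inr (h2.imp id fun h3 => by
          have h4 := h3.2
          rwa [Nat.add_sub_cancel] at h4)))) ?_
      · refine ((hcon (1 / 32) (by norm_num)).and hI' (EvP.self _ one_pos)).mono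
          fun q hq a w h1 h2 h3 h4 => ?_
        obtain ⟨hc1, hq⟩ := hq
        have hr := hq.is.r0
        change q.g ≤ w at h1
        change w ≤ q.g + q.r / 16 at h2
        change q.g + q.r ≤ a at h3
        change a ≤ q.g + q.r + q.r / 16 at h4
        have h5 := hc1 a w (by linarith) (by linarith) (by linarith)
        have h6 : (kitN H p K₀).kit.L q l₀ = iso (dgN hn P P' (show Od n from q.k.2) l₀) := by
          show iso ((kitN H p K₀).Dg q l₀) = _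
          rw [kit_dg H q l₀]
        have h7 := Pool.RTS.iso_le (dgN hn P P' (show Od n from q.k.2) l₀) a w
        show (kitN H p K₀).kit.L q l₀ a w + q.r / 32 ≤
          bet (P' (show Od n from q.k.2).2) (cc hn (show Od n from q.k.2).1.1) l₀ a w
        rw [h6]
        linarith
      · exact ⟨C₄, fun C₁ hC₁ B _ hB M' => by
          subst hB
          exact (hnfc C₁ hC₁ M').mono fun N θ q h2 => h2.setW
            (fun J F D A h3 => (hWs₀ q N M' θ J F D A (hWs q N M' θ J F D A h3)).1)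
            fun _ _ _ _ _ _ h3 => h3⟩)
  exact evX_false hI' (hX (max K' K₂)) H.ne H.tmh.1 _ hh1 hQc
    ((hP (max K' K₂)).monoK (le_max_left _ _)) hfact


/-! ### The kinds -/

/-- **The statements about the boxes** with one coordinate with gain; the coordinates before it, those
in `Rs` and the target are rough. -/
structure KnR (hn : 2 ≤ n) (S : PCl n) (P : ℝ → ℝ → ℝ) (rr : ℝ → ℝ)
    (P' PW : ℕ → List (Fin n) × Fin n → ℝ → ℝ → ℝ) (h : ℝ) (l₀ : ℕ) (Rs : Finset (Fin n))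
    (o : Od n) (g r d : ℝ) : Prop where
  row : NfB rr h d (P g g - r) (P g g + 3 * r)
  rgh : ∀ l ≤ n - 1, l ≠ l₀ → (l < l₀ ∨ (l = n - 1 ∨ InR Rs l)) → Box7 g r fun a w =>
    bet (PW o.2) (cc hn o.1.1) l a w ≤ dgN hn P P' o l w + (a - w) + d
  con : Box7 g r fun a w =>
    dgN hn P P' o l₀ w + 2 * (a - w) ≤ bet (P' o.2) (cc hn o.1.1) l₀ a w + d
  gnw : GnW hn S P P' o (DgC hn S P P' o l₀ g) l₀ g r

theorem KnR.mono {PW : ℕ → List (Fin n) × Fin n → ℝ → ℝ → ℝ} {h : ℝ} {l₀ : ℕ}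
    {Rs : Finset (Fin n)} {o : Od n} {g r d d' : ℝ} (hd : d ≤ d')
    (H : KnR hn S P rr P' PW h l₀ Rs o g r d) : KnR hn S P rr P' PW h l₀ Rs o g r d' :=
  ⟨nfB_mono H.row le_rfl hd le_rfl le_rfl,
    fun l hl hl' h2 => (H.rgh l hl hl' h2).mono fun _ _ h => h.trans (by linarith),
    H.con.mono fun _ _ h => h.trans (by linarith), H.gnw⟩

/-- **The windows with ties, one coordinate has labels with gain**, the coordinates before it, those
in `Rs` and the target are rough. `As` is a property of the slopes. -/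
noncomputable def kpR2 (H : PkT hn S P rr P' Λ PB) (hTop : TopS n) (hF : FZX (n - 1))
    (hρ : Rle rr ρ') (h : ℝ) (PW : ℕ → List (Fin n) × Fin n → ℝ → ℝ → ℝ)
    (As : ℝ → Fin (n - 1) × Finset (Fin n) → Od n → ℝ → Prop) :
    NumI.KndP ((H.nk hTop hF).chg hρ H.up) (Fin (n - 1) × Finset (Fin n)) where
  A c x o g := As c x o g ∧ SrtN hn P P' (show Od n from o) g ∧
    (DgC hn S P P' (show Od n from o) x.1 g : ℝ) * c ≤ 1
  Φ x o g r d := KnR hn S P rr P' PW h x.1 x.2 (show Od n from o) g r d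
  mono hd h := h.mono hd

variable {H}

/-- A window of this kind. -/
theorem kpR2_at {PW : ℕ → List (Fin n) × Fin n → ℝ → ℝ → ℝ}
    {As : ℝ → Fin (n - 1) × Finset (Fin n) → Od n → ℝ → Prop}
    {o : Od n} {g : ℝ} {l₀ : Fin (n - 1)} {Rs : Finset (Fin n)}
    (hA : ∃ c : ℝ, 0 < c ∧ ∀ c' : ℝ, 0 < c' → c' ≤ c → As c' (l₀, Rs) o g)
    (hsrt : SrtN hn P P' o g)
    (hrow : Sml fun r d => NfB rr h d (P g g - r) (P g g + 3 * r))
    (hrgh : ∀ l ≤ n - 1, l ≠ l₀ → (l < l₀ ∨ (l = n - 1 ∨ InR Rs l)) →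
      Sml fun r d => Box7 g r fun a w =>
        bet (PW o.2) (cc hn o.1.1) l a w ≤ dgN hn P P' o l w + (a - w) + d)
    (hcon : Sml fun r d => Box7 g r fun a w =>
      dgN hn P P' o l₀ w + 2 * (a - w) ≤ bet (P' o.2) (cc hn o.1.1) l₀ a w + d)
    (hgn : ∃ D : ℕ, ∃ r₀ : ℝ, 0 < r₀ ∧ ∀ r : ℝ, 0 < r → r < r₀ → GnW hn S P P' o D l₀ g r) :
    (kpR2 H hTop hF hρ h PW As).At (l₀, Rs) (show ((H.nk hTop hF).chg hρ H.up).O from o) g := by
  obtain ⟨c, hc, hA⟩ := hA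
  obtain ⟨Dd, hDd⟩ : ∃ Dd : ℝ, Dd = (DgC hn S P P' o l₀ g : ℝ) := ⟨_, rfl⟩
  have hD0 : 0 ≤ Dd := by rw [hDd]; exact Nat.cast_nonneg _
  refine ⟨min c (1 / (Dd + 1)), lt_min hc (by positivity), fun c' h1 h2 =>
    ⟨hA c' h1 (h2.trans (min_le_left _ _)), hsrt, ?_⟩, ?_⟩
  · have h3 := h2.trans (min_le_right _ _)
    rw [le_div_iff₀ (by linarith)] at h3
    show (DgC hn S P P' o l₀ g : ℝ) * c' ≤ 1
    rw [← hDd]
    linarith
  · have k1 : Sml fun r d => ∀ l ∈ Finset.range (n - 1 + 1), l ≠ (l₀ : ℕ) →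
        (l < l₀ ∨ (l = n - 1 ∨ InR Rs l)) → Box7 g r fun a w =>
        bet (PW o.2) (cc hn o.1.1) l a w ≤ dgN hn P P' o l w + (a - w) + d :=
      Sml.all _ fun l hl => by
        by_cases hl' : l ≠ (l₀ : ℕ) ∧ (l < l₀ ∨ (l = n - 1 ∨ InR Rs l))
        · exact (hrgh l (by have := Finset.mem_range.1 hl; omega) hl'.1 hl'.2).mono
            fun _ _ _ h _ _ => h
        · exact fun _ _ => ⟨1, one_pos, fun _ _ _ h1 h2 => absurd ⟨h1, h2⟩ hl'⟩
    have k2 : Sml fun r _ => GnW hn S P P' o (DgC hn S P P' o l₀ g) l₀ g r := by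
      intro e he
      obtain ⟨r₀, h1, h2⟩ := dgC_spec hgn
      exact ⟨r₀, h1, h2⟩
    exact ((hrow.and k1).and (hcon.and k2)).mono fun r d _ h => ⟨h.1.1,
      fun l hl hl' hll => h.1.2 l (Finset.mem_range.2 (by omega)) hl' hll, h.2.1, h.2.2⟩

/-- **No boxes of these kinds**, from a local theorem with the joint property `X`; the hypotheses on
the boxes of the kinds are `Hy`. -/
theorem nok_R2 {x' : ℝ} {X : ℕ → Finset (Fin n) → ℕ → ExtX} (hX : ∀ l₀ Rs K', (X l₀ Rs K').Mono)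
    {PW : ℕ → List (Fin n) × Fin n → ℝ → ℝ → ℝ}
    (hPW : ∀ j, ThrOf (chsysB n none (P' j)) S (PW j))
    {As : ℝ → Fin (n - 1) × Finset (Fin n) → Od n → ℝ → Prop}
    {Qc : ℝ → ℝ → ℕ → Finset (Fin n) → CondN}
    (hQc : ∀ c β l₀ Rs, (Qc c β l₀ Rs).Cl (n - 1 + 1))
    (hP : ∀ (K' : ℕ) (c β : ℝ) (l₀ : ℕ) (Rs : Finset (Fin n)), 0 < c → 0 < β → l₀ < n - 1 →
      MicX (X l₀ Rs K') (Qc c β l₀ Rs) (fun B => B = n + 2) (n - 1 + 1) K' h)
    (hQ : ∀ (c β : ℝ) (l₀ : Fin (n - 1)) (Rs : Finset (Fin n)) (o : Od n) (g : ℝ)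
      (gam : ℕ → ℝ), 0 < c → 0 < β → As c (l₀, Rs) o g → β ≤ slN hn P P' o (n - 1) g - 1 →
      (∀ l, 1 ≤ l → l ≤ n - 1 + 1 → gam l = max 0 (slN hn P P' o (l - 1) g - 1)) →
      Qc c β l₀ Rs (fun _ => 1) gam)
    {Hy : HypK (hTop := hTop) (hF := hF) (hρ := hρ) H (Fin (n - 1) × Finset (Fin n))}
    (hHy : ∀ (y : Fin (n - 1) × Finset (Fin n)) (p : ((H.nk hTop hF).chg hρ H.up).Par)
      (I : ℝ → BS p.cell → Prop), Hy y p I → ExnI H p I ∧ ExsI H p I ∧ NfcI H p x' I)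
    (hext : ∀ (y : Fin (n - 1) × Finset (Fin n)) (p : ((H.nk hTop hF).chg hρ H.up).Par),
      AdP H p → ∀ {ι' : Type} (kd : p.cell.α → ι') (y' : ι') (c β h' M : ℝ), 0 < c → 0 < β →
      Hy y p (IsK p.cell kd c β h' M y') →
      ExtOfR H p (IsK p.cell kd c β h' M y') (fun u => u ≠ (y.1 : ℕ) + 1)
        (fun u => u ≠ (y.1 : ℕ) + 1 ∧ InR y.2 (u - 1)) x' (X y.1 y.2))
    (hh : 0 < h) (hh1 : h ≤ 1) :
    NoKd H (kpR2 H hTop hF hρ h PW As) Hy := by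
  rintro p hp κ kd y ⟨l₀, Rs⟩ c β h₁ M hc hβ hK hy
  have hI' := isK_mono p.cell kd c β h₁ M y
  have hy' := hHy (l₀, Rs) p _ hy
  refine cls_R H (hX l₀ Rs) (hQc c β l₀ Rs) l₀.2 (Rs := InR Rs)
    (fun K' => hP K' c β l₀ Rs hc hβ l₀.2) hh hh1 hp hy'.1
    hy'.2.1 hy'.2.2 (hext (l₀, Rs) p hp kd y c β h₁ M hc hβ hy) hc hβ (fun q ε K₀ hq => ?_)
    (fun ε' hε' => (hK.Φ ε' hε').mono fun q h1 => h1.row)
    (fun ε q hq => (hK.A ε q hq).2.1) hPW
    (fun l hl hl' hll ε' hε' => (hK.Φ ε' hε').mono fun q h1 => h1.rgh l hl hl' hll)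
    (fun ε' hε' => (hK.Φ ε' hε').mono fun q h1 => h1.con) (DT := ⌊1 / c⌋₊)
    (((hK.Φ 1 one_pos).and hI' (EvP.self _ one_pos)).mono fun q h1 => h1.1.gnw.mono ?_)
  · obtain ⟨-, e2⟩ := gamS_tar H hq hβ K₀
    exact hQ c β l₀ Rs _ q.g _ hc hβ (hK.A ε q hq).1 e2 fun l l1 l2 => gamS_kit H hq K₀ l1 l2
  · have h2 := (hK.A _ q h1.2).2.2
    refine Nat.le_floor ?_
    rw [le_div_iff₀ hc]
    exact h2

end Pool.PKG
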