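import Pool.Agent.H14.P4J.KdJ
import Pool.Agent.H89.NSL.Knd
import Pool.Agent.H56.ASM.Fi

/-!
# The windows with a tie and a faster coordinate, with P4J

`tol_micJ`: the local theorem P4J for small tolerances. `noB_JY`: no boxes at the windows covered by
P4J, from the facts of the boxes and the closed lower bound. `FtRem`: the windows with a tie and a
faster coordinate which are not covered by P4, P5, P4I and P4J; `noB_fastJ`: if they have no boxes,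
no window with a tie and a faster coordinate has boxes. `ftRem_tie`: in dimension four, at these
windows the tied coordinate is not thin.
-/

set_option autoImplicit false

namespace Pool.PKG

open MeasureTheory Set Filter Topology
open Pool.Agent.H49.Ent Pool.Agent.H32.Dense Pool.STK Pool.KA Pool.KSAT Pool.K2S Pool.PB
open Pool.GEN Pool.S6C Pool.STAT Pool.CHT Pool.GRW Pool.ONE Pool.STA
open Pool.LBT (LSys ThrOf)
open Pool.LEV (Law Lv)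
open Pool.ALL (RateOf)
open Pool.TOP (TopS)
open Pool.RTS (iso Diag)
open Pool.STR (NumI CellD RowD NfB AffB Rle Nw ThinAt SteepAt StaAt)
open Pool.CHB (chsysB)
open Pool.STAT.CLO Pool.MIC6

variable {n : ℕ} {hn : 2 ≤ n} {S : PCl n} {P : ℝ → ℝ → ℝ} {rr : ℝ → ℝ}
  {P' : ℕ → List (Fin n) × Fin n → ℝ → ℝ → ℝ} {Λ : Finset (Fin n) → Fin n → ℝ → ℝ → ℝ}
  {PB : ℕ → List (Fin n) × Fin n → ℝ → ℝ → ℝ}
  {H : PkT hn S P rr P' Λ PB} {hTop : TopS n} {hF : FZX (n - 1)} {h : ℝ}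
  {ρ' : ℝ → ℝ} {hρ : Rle rr ρ'}

/-- Exactness, the closed lower bound and no slabs, from the facts and the closed lower bound. -/
theorem ExY.hasJ {X Y : Od n → ℝ → Prop} (hX : ExY H hTop hF hρ h X) {x : ℝ}
    (hY : FcB H hTop hF hρ h x Y) (hn4 : n ≤ 4) (hFk : ∀ k, 1 ≤ k → k < n → FZX k) :
    ∃ (ι : Type) (_ : Finite ι) (K : NumI.KndP ((H.nk hTop hF).chg hρ H.up) ι),
      HasK H K (HypJ H _ x) ∧ CovK K h fun o g => X o g ∧ Y o g := by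
  obtain ⟨ι, f, K, h1, h2⟩ := hX
  obtain ⟨ι', f', K', h1', h2'⟩ := hY
  refine ⟨ι × ι', inferInstance, K.and K', fun p hp _ kd x' x c β h₁ M hc hβ hK => ?_,
    h2.and h2'⟩
  have e1 := (h1.yv hn4 hFk).of_fst (K' := K') p hp kd x' x c β h₁ M hc hβ hK
  have e2 := (h1.ys hn4 hFk).of_fst (K' := K') p hp kd x' x c β h₁ M hc hβ hK
  exact ⟨e1.1, e1.2, h1'.of_snd (K := K) p hp kd x' x c β h₁ M hc hβ hK, e2⟩

/-- **The windows with ties covered by P4J have no boxes**, from the facts. -/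
theorem noB_JY (hn4 : n ≤ 4) (hFk : ∀ k, 1 ≤ k → k < n → FZX k) (hh : 0 < h) (hh1 : h ≤ 1)
    {x : ℝ}
    (hJ : ∀ (K' : ℕ) (R : ℕ → Prop) (c : ℝ), 0 < c → MicX (XJ K' 1 R x)
      (QJ R (n - 1 + 1) c) (fun B => B = n + 2) (n - 1 + 1) K' h)
    {PW : ℕ → List (Fin n) × Fin n → ℝ → ℝ → ℝ}
    (hPW : ∀ j, ThrOf (chsysB n none (P' j)) S (PW j)) {X Y : Od n → ℝ → Prop}
    (hX : ExY H hTop hF hρ h X) (hY : FcB H hTop hF hρ h x Y) :
    NoB H hTop hF hρ h fun o g => (TieT hn P P' PB o g ∧ CovJ hn P P' PB o g) ∧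
      (X o g ∧ Y o g) := by
  obtain ⟨ιE, fE, KE, hE, hcE⟩ := hX.hasJ hY hn4 hFk
  exact noB_J hh hh1 hJ hPW hE hcE

end Pool.PKG

namespace Pool.ASM

open MeasureTheory Set Filter Topology
open Pool.Agent.H49.Ent Pool.Agent.H32.Dense Pool.STK Pool.KA Pool.KSAT Pool.K2S Pool.PB
open Pool.GEN Pool.S6C Pool.GRW Pool.PKG Pool.STAT Pool.PM Pool.R1 Pool.Z4
open Pool.ONE (LocE Ext0 Ext rowN_of_ext)
open Pool.TOP (TopS rw_all)
open Pool.LEV (Law Lv)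
open Pool.STR (NumI TopW Mac StaAt IsoAt StaU1 ThinAt SteepAt Rle)
open Pool.MIC6
open Pool.SW (TopC NtO OneS NoTie Rgh Xa TieO)

/-- **The local theorem P4J**, for small tolerances and for all numbers slightly larger than the
maximal deficit. -/
theorem tol_micJ (hP : P4JStmt1) {n B₀ : ℕ} (hn : 1 ≤ n) (hB₀ : 1 ≤ B₀) :
    Tol fun η => ∀ D, 0 < D → D ≤ 1 → ∃ x₀ : ℝ, (1 + η D) * D < x₀ ∧ ∀ x : ℝ, x ≤ x₀ →
      ∀ (K : ℕ) (R : ℕ → Prop) (c : ℝ), 0 < c →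
        MicX (XJ K 1 R x) (QJ R n c) (fun B => B = B₀) n K ((1 - η D) * D) := by
  have h0 : Tol fun η => ∀ D, 0 < D → D ≤ 1 → ∃ x₀ : ℝ, (1 + η D) * D < x₀ ∧
      ∀ (K : ℕ) (R : ℕ → Prop) (c : ℝ), 0 < c →
        MicX (XJ K 1 R x₀) (QJ R n c) (fun B => B = B₀) n K ((1 - η D) * D) := by
    refine Tol.ofD (Q := fun D y => ∃ x : ℝ, (1 + y) * D < x ∧
      ∀ (K : ℕ) (R : ℕ → Prop) (c : ℝ), 0 < c →
        MicX (XJ K 1 R x) (QJ R n c) (fun B => B = B₀) n K ((1 - y) * D)) fun D hD hD1 => ?_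
    obtain ⟨δ, hδ, h1⟩ := micX_J hP hn hB₀ (half_pos hD)
    refine ⟨min (1 / 2) (δ / (4 * D)), lt_min (by norm_num) (by positivity),
      fun y hy hy' => ?_⟩
    have hy1 : y ≤ 1 / 2 := hy'.trans (min_le_left _ _)
    have hy2 : y ≤ δ / (4 * D) := hy'.trans (min_le_right _ _)
    rw [le_div_iff₀ (by positivity)] at hy2
    exact ⟨(1 - y) * D + δ, by nlinarith, fun K R c hc =>
      h1 K 1 R ((1 - y) * D) c (by nlinarith) (by nlinarith) hc⟩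
  refine h0.mono fun η h D hD hD1 => ?_
  obtain ⟨x₀, h1, h2⟩ := h D hD hD1
  refine ⟨x₀, h1, fun x hx K R c hc => ?_⟩
  exact (h2 K R c hc).mono (fun _ _ hX => ⟨⟨hX.1.1, nFc_mono hX.1.2.1 hx le_rfl, hX.1.2.2⟩, hX.2⟩)
    (fun _ _ h => h) fun _ h => h

section

variable {n : ℕ} {hn : 2 ≤ n} {S : PCl n} {P : ℝ → ℝ → ℝ} {r ρ : ℝ → ℝ}
  {P' : ℕ → List (Fin n) × Fin n → ℝ → ℝ → ℝ} {Λ : Finset (Fin n) → Fin n → ℝ → ℝ → ℝ}
  {PB : ℕ → List (Fin n) × Fin n → ℝ → ℝ → ℝ}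

/-- **The windows with a tie and a faster coordinate**, outside `X`, which are not covered by P4, P5,
P4I and P4J. -/
def FtRem (X : WinC) (H : PkT hn S P r P' Λ PB) (hTop : TopS n) (hF : FZX (n - 1)) (o : Od n)
    (g : ℝ) : Prop :=
  (FtWX X H hTop hF o g ∧ ¬ CovI hn P P' PB o g) ∧ ¬ CovJ hn P P' PB o g

/-- **No boxes at the windows with a tie and a faster coordinate**, from P4, P5, P4I, P4J and the
remaining ones. -/
theorem noB_fastJ {X : WinC} {H : PkT hn S P r P' Λ PB} {hTop : TopS n} {hF : FZX (n - 1)}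
    (hn4 : n ≤ 4) (hFk : ∀ k, 1 ≤ k → k < n → FZX k) {h : ℝ} (hh : 0 < h) (hh1 : h ≤ 1) {x : ℝ}
    (h4 : ∀ (K' : ℕ) (R : ℕ → Prop) (c : ℝ), 0 < c → MicX (XP4 K' 1 R x)
      (QT R (n - 1 + 1) c) (fun B => B = n + 2) (n - 1 + 1) K' h)
    (h5 : ∀ (K' : ℕ) (R : ℕ → Prop), MicX (XP4 K' 1 R x)
      (Q5 R (n - 1 + 1)) (fun B => B = n + 2) (n - 1 + 1) K' h)
    (hI : ∀ (K' : ℕ) (R : ℕ → Prop) (c : ℝ), 0 < c → MicX (XP4 K' 1 R x)
      (QI R (n - 1 + 1) c) (fun B => B = n + 2) (n - 1 + 1) K' h)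
    (hJ : ∀ (K' : ℕ) (R : ℕ → Prop) (c : ℝ), 0 < c → MicX (XJ K' 1 R x)
      (QJ R (n - 1 + 1) c) (fun B => B = n + 2) (n - 1 + 1) K' h)
    {PW : ℕ → List (Fin n) × Fin n → ℝ → ℝ → ℝ}
    (hPW : ∀ j, Pool.LBT.ThrOf (Pool.CHB.chsysB n none (P' j)) S (PW j))
    (hX : ExY H hTop hF (H.rle h) h (ExWX X H hTop hF))
    (hY : FcB H hTop hF (H.rle h) h x (FtWX X H hTop hF))
    (hR : NoB H hTop hF (H.rle h) h (FtRem X H hTop hF)) :
    NoB H hTop hF (H.rle h) h (FtWX X H hTop hF) := by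
  refine (((noB_PI hh hh1 h4 h5 hI hPW (hX.exB hn4 hFk) hY).or
    (noB_JY hn4 hFk hh hh1 hJ hPW hX hY)).or hR).mono fun o => ?_
  filter_upwards [fast_one hn4 H hTop hF o] with g k1 R hg
  have hE : ExWX X H hTop hF o g :=
    ⟨⟨hg.1.1.one, hg.1.1.thin⟩, k1 R.mem hg.1.1 hg.1.2, hg.2⟩
  by_cases hc : CovI hn P P' PB o g
  · exact Or.inl (Or.inl ⟨⟨hg.1.1, hc⟩, hE, hg⟩)
  by_cases hd : CovJ hn P P' PB o g
  · exact Or.inl (Or.inr ⟨⟨hg.1.1, hd⟩, hE, hg⟩)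
  · exact Or.inr ⟨⟨hg, hc⟩, hd⟩

end

end Pool.ASM
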