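import Pool.Agent.H14.P4J.ClsX
import Pool.Agent.H14.NBI.KdI
import Pool.Agent.H78.TT.KdA

/-!
# Ties with faster coordinates, the slope of the target is at least three

`HypJ`: exactness, the closed lower bound and no slabs. `extOf_J`: the joint property of P4J from the
one of P4. `nok_RJ`, `nok_CJ`: no boxes of the kinds, by P4J. `CovJ`: the windows where the slope of the
target is at least `3`, the coordinates before the target have a slope smaller than `2`, or are tied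
and thin, or are faster than the target, at most one of them is not thin. `noB_J`: no boxes at these
windows.
-/

set_option autoImplicit false

namespace Pool.PKG

open MeasureTheory Set Filter Topology
open Pool.Agent.H49.Ent Pool.Agent.H32.Dense Pool.STK Pool.KA Pool.KSAT Pool.K2S Pool.PB
open Pool.GEN Pool.S6C Pool.STAT Pool.CHT Pool.GRW Pool.ONE Pool.STA
open Pool.LBT (LSys ThrOf)
open Pool.LEV (Law Lv)
open Pool.ALL (RateOf)
open Pool.TOP (TopS)
open Pool.RTS (iso Diag)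
open Pool.STR (NumI CellD RowD NfB AffB Rle Nw ThinAt SteepAt StaAt)
open Pool.ISO (ChI)
open Pool.CHB (chsysB)
open Pool.STAT.CLO Pool.MIC6
open Pool.P4 (NFc1)

variable {n : ℕ} {hn : 2 ≤ n} {S : PCl n} {P : ℝ → ℝ → ℝ} {rr : ℝ → ℝ}
  {P' : ℕ → List (Fin n) × Fin n → ℝ → ℝ → ℝ} {Λ : Finset (Fin n) → Fin n → ℝ → ℝ → ℝ}
  {PB : ℕ → List (Fin n) × Fin n → ℝ → ℝ → ℝ}

/-! ### Slopes -/

/-- The slopes of P4J. -/
def SlJ (hn : 2 ≤ n) (P : ℝ → ℝ → ℝ) (P' : ℕ → List (Fin n) × Fin n → ℝ → ℝ → ℝ) (c : ℝ)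
    (o : Od n) (g : ℝ) : Prop :=
  3 ≤ slN hn P P' o (n - 1) g ∧ ∀ l < n - 1, slN hn P P' o l g ≤ 2 - c ∨
    (slN hn P P' o l g = slN hn P P' o (n - 1) g ∨
      slN hn P P' o (n - 1) g + c ≤ slN hn P P' o l g)

theorem slJ_mono {c c' : ℝ} {o : Od n} {g : ℝ} (h : SlJ hn P P' c' o g) (hc : c ≤ c') :
    SlJ hn P P' c o g := by
  refine ⟨h.1, fun l hl => ?_⟩
  rcases h.2 l hl with h1 | h1 | h1
  · exact Or.inl (by linarith)
  · exact Or.inr (Or.inl h1)
  · exact Or.inr (Or.inr (by linarith))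

theorem slJ_at {o : Od n} {g : ℝ} (h3 : 3 ≤ slN hn P P' o (n - 1) g)
    (h : ∀ l < n - 1, slN hn P P' o l g < 2 ∨ slN hn P P' o l g = slN hn P P' o (n - 1) g ∨
      slN hn P P' o (n - 1) g < slN hn P P' o l g) :
    ∃ c : ℝ, 0 < c ∧ ∀ c' : ℝ, 0 < c' → c' ≤ c → SlJ hn P P' c' o g := by
  classical
  obtain ⟨c, hc, hc1⟩ := pos_fin (Finset.range (n - 1))
    (f := fun l => if slN hn P P' o l g < 2 then 2 - slN hn P P' o l g else
      if slN hn P P' o l g = slN hn P P' o (n - 1) g then 1 else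
        slN hn P P' o l g - slN hn P P' o (n - 1) g) fun l hl => by
      split_ifs with h1 h2
      · linarith
      · exact one_pos
      · rcases h l (Finset.mem_range.1 hl) with h4 | h4 | h4
        · exact absurd h4 h1
        · exact absurd h4 h2
        · linarith
  refine ⟨c, hc, fun c' _ hcc => slJ_mono ⟨h3, fun l hl => ?_⟩ hcc⟩
  have h4 := hc1 l (Finset.mem_range.2 hl)
  beta_reduce at h4
  split_ifs at h4 with h1 h2
  · exact Or.inl (by linarith)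
  · exact Or.inr (Or.inl h2)
  · exact Or.inr (Or.inr (by linarith))

/-- The conditions for the slopes of P4J. -/
theorem qJ_of {R : ℕ → Prop} {c : ℝ} {o : Od n} {g : ℝ} {gam : ℕ → ℝ}
    (hA : SlJ hn P P' c o g)
    (hgam : ∀ l, 1 ≤ l → l ≤ n - 1 + 1 → gam l = max 0 (slN hn P P' o (l - 1) g - 1))
    (hR : ∀ l, 1 ≤ l → l < n - 1 + 1 → ¬ R l →
      slN hn P P' o (n - 1) g + c ≤ slN hn P P' o (l - 1) g) :
    QJ R (n - 1 + 1) (min c 1) (fun _ => 1) gam := by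
  have e1 := hgam (n - 1 + 1) (by omega) le_rfl
  have h3 := hA.1
  rw [Nat.add_sub_cancel, max_eq_right (by linarith)] at e1
  refine ⟨fun _ _ _ => rfl, by rw [e1]; linarith, fun l l1 l2 => ?_, fun l l1 l2 h4 => ?_⟩
  · rw [e1, hgam l l1 l2.le]
    rcases hA.2 (l - 1) (by omega) with h4 | h4 | h4
    · refine Or.inl (max_le ?_ ?_)
      · linarith [min_le_right c 1]
      · linarith [min_le_left c 1]
    · refine Or.inr (Or.inl ?_)
      rw [h4, max_eq_right (by linarith)]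
    · refine Or.inr (Or.inr (le_max_of_le_right ?_))
      linarith [min_le_left c 1]
  · rw [e1, hgam l l1 l2.le]
    have h5 := hR l l1 l2 h4
    exact le_max_of_le_right (by linarith [min_le_left c 1])

/-! ### The joint property -/

variable (H : PkT hn S P rr P' Λ PB) {hTop : TopS n} {hF : FZX (n - 1)} {h : ℝ}
  {ρ' : ℝ → ℝ} {hρ : Rle rr ρ'}

/-- **Exactness, the closed lower bound and no slabs**, on the boxes of the kinds. -/
def HypJ (ι : Type) (x : ℝ) : HypK (hTop := hTop) (hF := hF) (hρ := hρ) H ι :=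
  fun _ p I => ExnI H p I ∧ ExsI H p I ∧ NfcI H p x I ∧ NslI H p I

/-- **The joint property of P4J** from the one of P4 and no slabs. -/
theorem extOf_J {p : ((H.nk hTop hF).chg hρ H.up).Par} (hpI : AdP H p) {ι : Type}
    {kd : p.cell.α → ι} {c β h' M : ℝ} {x : ι} (hc : 0 < c) (hβ : 0 < β)
    (hnsl : NslI H p (IsK p.cell kd c β h' M x)) (R : ℕ → Prop) (x' : ℝ) :
    ExtOf H p (IsK p.cell kd c β h' M x) R x' (fun K' => XJ K' 1 R x') := by
  intro K₀ K' K₄ s₁ sh hK₀ hK' hK₄ W her hWs h4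
  have hI' := isK_mono p.cell kd c β h' M x
  obtain ⟨C₄, h4⟩ := h4
  obtain ⟨C₅, h5⟩ := hnsl K₀ K' s₁ sh hK₀ hK'
  refine ⟨max C₄ C₅, fun C₁ hC₁ B hB hPB M' Q K'' η' κ hη hκ => ?_⟩
  have c5 : C₅ ≤ C₁ := (le_max_right _ _).trans hC₁
  refine ((h4 C₁ ((le_max_left _ _).trans hC₁) B hB hPB M' Q K'' η' κ hη hκ).and hI'
    (((h5 C₁ c5 M' 1 κ hκ).mono fun N θ q h2 => h2.setW (her := her) (hWs q N M' θ)
      fun _ _ _ _ _ _ h3 => h3).and hI'
      (slp_P hI' ((kitN H p K₀).kit.setW W her) (fun q => kit_inj H p K₀ q.k)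
        (fun _ _ _ => rfl) (kit_cel H hpI (kd := kd) (h' := h') (M := M) hc hβ x K₀) hK'
        (s₁ := s₁) (sh := sh) (S := S) M'))).mono fun N θ p hp => ?_
  refine (hp.1.and (hp.2.1.and hp.2.2)).mono
    fun b e J F D q hq lam' gam' l1 l2 l3 l4 => ?_
  exact ⟨hq.1 lam' gam' l1 l2 l3 l4, strt_nd _ _ _ _ _ _ _ _ _, hq.2.2, hq.2.1⟩

/-! ### No boxes of the kinds -/

variable {H} in
/-- **No boxes, all coordinates are rough**, from a local theorem with the joint property `X`. -/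
theorem nok_RX {x' : ℝ} {X : ℕ → ExtX} (hX : ∀ K', (X K').Mono) {As : ℝ → Od n → ℝ → Prop}
    {Qc : ℝ → ℝ → CondN}
    (hQc : ∀ c β, (Qc c β).Cl (n - 1 + 1))
    (hP : ∀ (K' : ℕ) (c β : ℝ), 0 < c → 0 < β →
      MicX (X K') (Qc c β) (fun B => B = n + 2) (n - 1 + 1) K' h)
    (hQ : ∀ (c β : ℝ) (o : Od n) (g : ℝ) (gam : ℕ → ℝ), 0 < c → 0 < β →
      As c o g → β ≤ slN hn P P' o (n - 1) g - 1 →
      (∀ l, 1 ≤ l → l ≤ n - 1 + 1 → gam l = max 0 (slN hn P P' o (l - 1) g - 1)) →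
      Qc c β (fun _ => 1) gam)
    {Hy : HypK (hTop := hTop) (hF := hF) (hρ := hρ) H Unit}
    (hHy : ∀ (u : Unit) (p : ((H.nk hTop hF).chg hρ H.up).Par) (I : ℝ → BS p.cell → Prop),
      Hy u p I → ExnI H p I ∧ ExsI H p I ∧ NfcI H p x' I)
    (hext : ∀ (u : Unit) (p : ((H.nk hTop hF).chg hρ H.up).Par), AdP H p →
      ∀ {ι' : Type} (kd : p.cell.α → ι') (y : ι') (c β h' M : ℝ), 0 < c → 0 < β →
      Hy u p (IsK p.cell kd c β h' M y) →
      ExtOf H p (IsK p.cell kd c β h' M y) (fun _ => True) x' X)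
    (hh : 0 < h) (hh1 : h ≤ 1) :
    NoKd H (kpRg H hTop hF hρ h As) Hy := by
  intro p hp κ kd x R c β h' M hc hβ hK hy
  have hI' := isK_mono p.cell kd c β h' M x
  have hsub := isK_sub p.cell kd c β h' M x
  have hy' := hHy R p _ hy
  refine cls_mic H hh hh1 hp hy'.1 hy'.2.1 hc hβ
    (fun ε' hε' => (hK.Φ ε' hε').mono fun q h => h.row)
    (X := X) hX (hQc c β) (fun K' => hP K' c β hc hβ) (fun q ε K₀ hq => ?_)
    fun K₀ K' s₁ sh hK₀ hK' W her hWs => ?_
  · obtain ⟨-, e2⟩ := gamS_tar H hq hβ K₀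
    exact hQ c β _ q.g _ hc hβ (hK.A ε q hq) e2 fun l l1 l2 => gamS_kit H hq K₀ l1 l2
  · refine hext R p hp kd x c β h' M hc hβ hy K₀ K' K' s₁ sh hK₀ hK' le_rfl W her hWs ?_
    have hfc := hy'.2.2 K₀ K' s₁ sh hK₀ hK'
    refine ext_P hI' H.tmh ((kitN H p K₀).kit.setW W her)
      (kit_cel H hp (kd := kd) (h' := h') (M := M) hc hβ x K₀) hK'
      (be := fun q => bi P' (show Od n from q.k.2).2)
      (P := fun q => PB (show Od n from q.k.2).2) (fun q => H.thb _)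
      (fun q l hl a w _ _ _ => (kit_Lb H q hl a w).le)
      (fun l hl ε' hε' => ?_) le_rfl ?_
    · rcases Nat.lt_or_ge l (n - 1) with hl' | hl'
      · refine ((hK.Φ ε' hε').and hI' (EvP.self _ one_pos)).mono fun q hq z hz => ?_
        obtain ⟨hΦ, hq⟩ := hq
        have hr := hq.is.r0
        have h1 := hΦ.rgh l hl' (inR_univ hl')
        have h2 : ∀ a w : ℝ, 0 ≤ w → w ≤ a → a ≤ 1 →
            bet (PB (show Od n from q.k.2).2) (cc hn (show Od n from q.k.2).1.1) l a w ≤ 1 :=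
          fun a w k1 k2 k3 => (H.thb _).up _ a w k1 k2 k3
        have h3 := box_le h2 hr hq.is.g0 hq.is.g1 h1 (mul_pos hε' hr).le hz
        have h4 : (kitN H p K₀).kit.L q l = iso (dgN hn P P' (show Od n from q.k.2) l) := by
          show iso ((kitN H p K₀).Dg q l) = _
          rw [kit_dg H q l]
        show Nw (bet (PB (show Od n from q.k.2).2) (cc hn (show Od n from q.k.2).1.1) l) z ≤
          Nw ((kitN H p K₀).kit.L q l) z + ε' * q.r
        rw [h4]
        exact h3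
      · obtain rfl : l = n - 1 := by omega
        exact (kit_thr H ε' hε').sub hsub
    · obtain ⟨C₄, h1⟩ := hfc
      exact ⟨C₄, fun C₁ hC₁ B _ hB M' => by
        subst hB
        exact (h1 C₁ hC₁ M').mono fun N θ q h2 => h2.setW (hWs q N M' θ)
          fun _ _ _ _ _ _ h3 => h3⟩

variable {H} in
/-- **No boxes, all coordinates are rough**, by P4J. -/
theorem nok_RJ {x' : ℝ}
    (hP : ∀ (K' : ℕ) (R : ℕ → Prop) (c : ℝ), 0 < c → MicX (XJ K' 1 R x')
      (QJ R (n - 1 + 1) c) (fun B => B = n + 2) (n - 1 + 1) K' h)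
    (hh : 0 < h) (hh1 : h ≤ 1) :
    NoKd H (kpRg H hTop hF hρ h (SlJ hn P P')) (HypJ H _ x') :=
  nok_RX (X := fun K' => XJ K' 1 (fun _ => True) x') (fun K' => xJ_mono K' 1 _ x')
    (Qc := fun c _ => QJ (fun _ => True) (n - 1 + 1) (min c 1))
    (fun _ _ => qJ_cl _ (by omega) _) (fun K' c β hc _ => hP K' _ _ (lt_min hc one_pos))
    (fun c β o g gam _ _ hA _ hgam => qJ_of hA hgam fun _ _ _ h3 => absurd trivial h3)
    (fun _ _ _ hy => ⟨hy.1, hy.2.1, hy.2.2.1⟩)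
    (fun _ p hp _ kd y c β h' M hc hβ hy => extOf_J H hp hc hβ hy.2.2.2 _ x') hh hh1

/-- The slopes of P4J, the coordinate `l₀` is faster than the target. -/
def SlCJ (hn : 2 ≤ n) (P : ℝ → ℝ → ℝ) (P' : ℕ → List (Fin n) × Fin n → ℝ → ℝ → ℝ) (c : ℝ)
    (l₀ : ℕ) (o : Od n) (g : ℝ) : Prop :=
  slN hn P P' o (n - 1) g + c ≤ slN hn P P' o l₀ g ∧ SlJ hn P P' c o g

variable {H} in
/-- **No boxes, one coordinate has labels with gain**, by P4J. -/
theorem nok_CJ {x' : ℝ} {PW : ℕ → List (Fin n) × Fin n → ℝ → ℝ → ℝ}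
    (hPW : ∀ j, ThrOf (chsysB n none (P' j)) S (PW j))
    (hP : ∀ (K' : ℕ) (R : ℕ → Prop) (c : ℝ), 0 < c → MicX (XJ K' 1 R x')
      (QJ R (n - 1 + 1) c) (fun B => B = n + 2) (n - 1 + 1) K' h)
    (hh : 0 < h) (hh1 : h ≤ 1) :
    NoKd H (kpC H hTop hF hρ h PW (SlCJ hn P P')) (HypJ H _ x') :=
  nok_CX (X := fun l₀ K' => XJ K' 1 (fun u => u ≠ l₀ + 1) x')
    (fun l₀ K' => xJ_mono K' 1 _ x') hPW
    (Qc := fun c _ l₀ => QJ (fun u => u ≠ l₀ + 1) (n - 1 + 1) (min c 1))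
    (fun _ _ _ => qJ_cl _ (by omega) _)
    (fun K' c β l₀ hc _ _ => hP K' _ _ (lt_min hc one_pos))
    (fun c β l₀ o g gam _ _ _ hA _ hgam => qJ_of hA.2 hgam
      fun l l1 l2 h3 => by
        have h4 : l = l₀ + 1 := by
          by_contra h5
          exact h3 h5
        rw [h4, Nat.add_sub_cancel]
        exact hA.1)
    (fun _ _ _ hy => ⟨hy.1, hy.2.1, hy.2.2.1⟩)
    (fun l₀ p hp _ kd y c β h' M hc hβ hy => extOf_J H hp hc hβ hy.2.2.2 _ x') hh hh1

/-! ### The windows -/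

/-- **The windows of P4J**: the slope of the target is at least `3`, the coordinates before the target
have a slope smaller than `2`, or the slope of the target, or are faster; at most one of them is not
thin, and then it is faster than the target. -/
def CovJ (hn : 2 ≤ n) (P : ℝ → ℝ → ℝ) (P' PB : ℕ → List (Fin n) × Fin n → ℝ → ℝ → ℝ) (o : Od n)
    (g : ℝ) : Prop :=
  (3 ≤ slN hn P P' o (n - 1) g ∧
    ∀ l < n - 1, slN hn P P' o l g < 2 ∨ slN hn P P' o l g = slN hn P P' o (n - 1) g ∨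
      slN hn P P' o (n - 1) g < slN hn P P' o l g) ∧
    ∃ l₀ < n - 1, (∀ l < n - 1, l ≠ l₀ → ThN hn P P' PB o l g) ∧
      (ThN hn P P' PB o l₀ g ∨ slN hn P P' o (n - 1) g < slN hn P P' o l₀ g)

variable {H} in
/-- **The windows with ties covered by P4J have no boxes.** -/
theorem noB_J (hh : 0 < h) (hh1 : h ≤ 1) {x : ℝ}
    (hJ : ∀ (K' : ℕ) (R : ℕ → Prop) (c : ℝ), 0 < c → MicX (XJ K' 1 R x)
      (QJ R (n - 1 + 1) c) (fun B => B = n + 2) (n - 1 + 1) K' h)
    {PW : ℕ → List (Fin n) × Fin n → ℝ → ℝ → ℝ}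
    (hPW : ∀ j, ThrOf (chsysB n none (P' j)) S (PW j)) {X : Od n → ℝ → Prop} {ιE : Type}
    [Finite ιE] {KE : NumI.KndP ((H.nk hTop hF).chg hρ H.up) ιE} (hE : HasK H KE (HypJ H _ x))
    (hcE : CovK KE h X) :
    NoB H hTop hF hρ h fun o g => (TieT hn P P' PB o g ∧ CovJ hn P P' PB o g) ∧ X o g := by
  have nT := (nok_RJ (H := H) (hTop := hTop) (hF := hF) (hρ := hρ) (x' := x) hJ hh hh1).sum
    (nok_CJ (H := H) (hTop := hTop) (hF := hF) (hρ := hρ) (x' := x) hPW hJ hh hh1)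
  refine noB_of (nT.and KE) ?_ (CovK.and (fun o => ?_) hcE)
  · intro p hp κ kd y x' c β h₁ M hc hβ hK
    have hK' : OnK H KE p x'.2 c (IsK p.cell kd c β h₁ M y) :=
      ⟨fun ε q hq => (hK.A ε q hq).2, fun ε' hε' => (hK.Φ ε' hε').mono fun _ h => h.2⟩
    have h6 := hE p hp kd y x'.2 c β h₁ M hc hβ hK'
    rcases x' with ⟨x' | x', xE⟩ <;> exact h6
  filter_upwards [slo_two H hTop hF,
      H.rgh_ae hTop hF (be := fun j => bi P' j) (PW := PB) H.thb, H.rgh_ae hTop hF hPW,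
      H.gnW_ae hTop hF, H.dia_all H.pble hTop hF]
      with g ktwo krB krW kgn kdia R hrw hX
  obtain ⟨hT, ⟨h3, hsl⟩, l₀, hl₀, hth, hl⟩ := hX
  have ho := R.mem
  have hths := hT.ths
  obtain ⟨c, hc, hcJ⟩ := slJ_at (hn := hn) (P := P) (P' := P') h3 hsl
  by_cases hth₀ : ThN hn P P' PB o l₀ g
  · have hth' : ∀ l < n - 1, ThN hn P P' PB o l g := fun l hl => by
      by_cases h6 : l = l₀
      · rwa [h6]
      · exact hth l hl h6
    exact ⟨Sum.inl (), NumI.KndP.At.inl (kpRg_at H ⟨c, hc, hcJ⟩ hrw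
      fun l hl => krB o ho l hl.le (hth' l hl))⟩
  have hfast : slN hn P P' o (n - 1) g < slN hn P P' o l₀ g := hl.resolve_left hth₀
  obtain ⟨hsta, h2⟩ := ktwo o ho l₀ hl₀ (fun k hk => hths k (hk.trans hl₀)) (hths l₀ hl₀) hth₀
  have hrgh : ∀ l ≤ n - 1, l ≠ l₀ → Sml fun r d => Box7 g r fun a w =>
      bet (PW o.2) (cc hn o.1.1) l a w ≤ dgN hn P P' o l w + (a - w) + d := fun l hl hll => by
    refine krW o ho l hl ?_
    rcases hl.lt_or_eq with h6 | rfl
    · exact hth l h6 hll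
    · have eL : LvL hn P P' o (n - 1) = P := by
        funext a w
        exact LvL_top o a w
      rw [eL, LvT_top]
      exact hT.thin
  have hdif : DifferentiableAt ℝ (dgN hn P P' o l₀) g := by
    have h6 : dgN hn P P' o l₀ = fun a => LvL hn P P' o l₀ a a :=
      funext fun a => dgN_LvL o hl₀.le a
    rw [h6]
    exact (kdia o ho l₀ hl₀.le).1
  have hsta' : StaAt (bet (P' o.2) (cc hn o.1.1) l₀) g := by
    have h6 : LvL hn P P' o l₀ = bet (P' o.2) (cc hn o.1.1) l₀ := by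
      funext a w
      exact LvL_lt o hl₀ a w
    rwa [h6] at hsta
  have hcon := con_sml hl₀ hdif h2 hsta'
  have hgn := kgn o ho l₀ hl₀ (fun k hk => hth k (hk.trans hl₀) (by omega)) hsta h2
  refine ⟨Sum.inr ⟨l₀, hl₀⟩, NumI.KndP.At.inr (kpC_at (l₀ := ⟨l₀, hl₀⟩)
    ⟨min c (slN hn P P' o l₀ g - slN hn P P' o (n - 1) g), lt_min hc (by linarith),
      fun c' h1 h4 => ⟨?_, hcJ c' h1 (h4.trans (min_le_left _ _))⟩⟩
    (srt_gs H.toPk hTop hF ho) hrw hrgh hcon hgn)⟩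
  have h5 := h4.trans (min_le_right _ _)
  linarith

end Pool.PKG
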