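import Pool.Agent.H14.P4J.Stm2
import Pool.Agent.H14.P4J.ExtR

/-!
# P4J with static ties, for the classes

`QJ2`: the closed conditions for the slopes; `XJR`: the joint property of the cells; `micX_J2`: the
form of `P4JStmt2` which is used for the classes. The coordinates outside `R` have labels with gain;
the coordinates in `R` and outside `Rn` are above, there is no claim about their labels.
-/

set_option autoImplicit false

namespace Pool.STAT

open Finset MvPolynomial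
open Pool.Agent.H49.Ent Pool.Agent.H32.Dense Pool.STK Pool.KS3
open Pool.BFL (Pb)
open Pool.P4 (GnL NBT NewLabT NFc1)

/-- **The joint property of the cells of P4J**, with static ties. -/
def XJR (K A : ℕ) (R Rn : ℕ → Prop) (x : ℝ) : ExtX :=
  fun B lam gam n J a₀ w₀ z M Q K' η' κ C₁ D q =>
    XR4 K A R Rn x B lam gam n J a₀ w₀ z M Q K' η' κ C₁ D q ∧ D.Strt ∧ D.Slp n J z M q ∧
      D.NoSl n J w₀ z M 1 C₁ κ q

theorem xJR_mono (K A : ℕ) (R Rn : ℕ → Prop) (x : ℝ) : (XJR K A R Rn x).Mono := by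
  refine ⟨?_⟩
  rintro B lam gam n J a₀ w₀ z M Q Q' K' K'' η η' κ κ' C₁ C₁' D q hq h1 h2 h3 h4 h5
    ⟨k1, k2, k3, k4⟩
  exact ⟨(xR4_mono K A R Rn x).mono hq h1 h2 h3 h4 h5 k1, k2, k3, k4.mono le_rfl h5 h4⟩

/-- **The slopes of the cells with static ties and faster coordinates**, the slope of the target is at
least `2`: the slopes before the target are smaller than `2`, or equal to the slope of the target, or
larger; the coordinates outside `R` are not slow; the coordinates in `R` and outside `Rn` are above. -/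
def QJ2 (R Rn : ℕ → Prop) (n : ℕ) (c : ℝ) : CondN := fun lam gam =>
  (∀ l, 1 ≤ l → l ≤ n → lam l = 1) ∧ (1 ≤ gam n ∧
    ((∀ l, 1 ≤ l → l < n → gam l ≤ 1 - c ∨ (gam l = gam n ∨ gam n + c ≤ gam l)) ∧
      ((∀ l, 1 ≤ l → l < n → ¬ R l → gam n ≤ gam l) ∧
        ∀ l, 1 ≤ l → l < n → R l → ¬ Rn l → gam n + c ≤ gam l ∧ 2 ≤ gam l)))

theorem qJ2_cl (R Rn : ℕ → Prop) {n : ℕ} (hn : 1 ≤ n) (c : ℝ) : (QJ2 R Rn n c).Cl n := by
  have e1 : ∀ (x : ℝ) (l), 1 ≤ l → l < n → CondN.Cl (fun _ gam => gam n + x ≤ gam l) n := by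
    intro x l h1 h2
    refine ⟨isClosed_le (((continuous_apply n).comp continuous_snd).add continuous_const)
      ((continuous_apply l).comp continuous_snd), fun {lam gam lam' gam'} _ k2 h3 => ?_⟩
    rw [k2 l h1 h2.le, k2 n hn le_rfl]
    exact h3
  have e0 : ∀ l, 1 ≤ l → l < n → CondN.Cl (fun _ gam => gam n ≤ gam l) n := by
    intro l h1 h2
    refine ⟨isClosed_le ((continuous_apply n).comp continuous_snd)
      ((continuous_apply l).comp continuous_snd), fun {lam gam lam' gam'} _ k2 h3 => ?_⟩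
    rw [k2 l h1 h2.le, k2 n hn le_rfl]
    exact h3
  have e2 : ∀ l, 1 ≤ l → l ≤ n → ∀ x : ℝ, CondN.Cl (fun _ gam => x ≤ gam l) n := by
    intro l h1 h2 x
    refine ⟨isClosed_le continuous_const ((continuous_apply l).comp continuous_snd),
      fun {lam gam lam' gam'} _ k2 h3 => ?_⟩
    rw [k2 l h1 h2]
    exact h3
  refine (CondN.Cl.all fun l => CondN.Cl.imp fun h1 => CondN.Cl.imp fun h2 =>
    CondN.Cl.lam_eq h1 h2 1).and (CondN.Cl.and (e2 n hn le_rfl 1)
    ((CondN.Cl.all fun l => CondN.Cl.imp fun h1 => CondN.Cl.imp fun h2 =>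
      ⟨?_, fun {lam gam lam' gam'} _ k2 h3 => ?_⟩).and ((CondN.Cl.all fun l =>
      CondN.Cl.imp fun h1 => CondN.Cl.imp fun h2 => CondN.Cl.imp fun _ => e0 l h1 h2).and
      (CondN.Cl.all fun l => CondN.Cl.imp fun h1 => CondN.Cl.imp fun h2 => CondN.Cl.imp fun _ =>
        CondN.Cl.imp fun _ => (e1 c l h1 h2).and (e2 l h1 h2.le 2)))))
  · exact (isClosed_le ((continuous_apply l).comp continuous_snd) continuous_const).union
      ((isClosed_eq ((continuous_apply l).comp continuous_snd)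
        ((continuous_apply n).comp continuous_snd)).union (e1 c l h1 h2).1)
  · rw [k2 l h1 h2.le, k2 n hn le_rfl]
    exact h3

/-- **The local theorem with static ties**, for the classes: `δ` depends on `n`, `B` and a lower bound
of the deficit. -/
theorem micX_J2 (hP : P4JStmt2) {n B₀ : ℕ} (hn : 1 ≤ n) (hB₀ : 1 ≤ B₀) {h₀ : ℝ}
    (hh₀ : 0 < h₀) : ∃ δ : ℝ, 0 < δ ∧ ∀ (K A : ℕ) (R Rn : ℕ → Prop) (h c : ℝ), h₀ ≤ h →
      h ≤ 1 → 0 < c →
      MicX (XJR K A R Rn (h + δ)) (QJ2 R Rn n c) (fun B => B = B₀) n K h := by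
  obtain ⟨δ, hδ, H⟩ := hP n B₀ h₀ hn hB₀ hh₀
  refine ⟨δ, hδ, fun K A R Rn h c hh hh1 hc B lam gam C₁ hB hBB hlam hgam hgn hC₁ hQ => ?_⟩
  subst hBB
  obtain ⟨q1, q2, q3, q4, q5⟩ := hQ
  have c0 : 0 < min c 1 := lt_min hc one_pos
  have c1 : min c 1 ≤ c := min_le_left _ _
  have c2 : min c 1 ≤ 1 := min_le_right _ _
  obtain ⟨th, hth⟩ : ∃ th : ℝ, th = max 1 (gam n - 1 + min c 1) := ⟨_, rfl⟩
  have t1 : 1 ≤ th := by rw [hth]; exact le_max_left _ _
  have t2 : gam n - 1 + min c 1 ≤ th := by rw [hth]; exact le_max_right _ _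
  have t3 : th ≤ gam n := by rw [hth]; exact max_le q2 (by linarith)
  obtain ⟨M, Q, K', η', κ, ϖ, z₀, a1, a2, a3, a4, H⟩ := H K A gam th R C₁ h hh
    hh1 hgam t1 (by linarith) t3 (fun l h1 h2 => by
      rcases q3 l h1 h2 with h3 | h3 | h3
      · exact Or.inl (by linarith)
      · exact Or.inr (by linarith)
      · exact Or.inr (by linarith)) (fun l h1 h2 h3 => by
      by_contra h4
      have := q4 l h1 h2 h4
      linarith) hC₁
  refine ⟨M, Q, K', η', κ, ϖ, z₀, a1, a2, a3, fun J a₀ w₀ z D q hz hO hN hX => ?_⟩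
  obtain ⟨⟨x1, x2, U, x3, x4⟩, x5, x6, x7⟩ := hX
  obtain ⟨l, l1, l2, l3, i, hi, j, hj, h3⟩ := H lam J a₀ w₀ z D q U q1 hz hO hN x2 x1 x5 x6 x7 x3
  refine x4 l l1 l2 ?_ i hi j hj h3
  rcases l3 with h4 | ⟨h4, h5⟩
  · exact Or.inl h4
  by_cases h6 : l = n
  · exact Or.inl h6
  refine Or.inr ?_
  by_contra h7
  obtain ⟨h8, h9⟩ := q5 l l1 (by omega) h4 h7
  rcases le_total 1 (gam n - 1 + min c 1) with h11 | h11
  · rw [hth, max_eq_right h11] at h5
    linarith
  · rw [hth, max_eq_left h11] at h5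
    linarith

end Pool.STAT
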