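import Pool.Agent.H14.P4J.ClsR
import Pool.Agent.H14.P4J.StmR
import Pool.Agent.H14.P4J.KdJ

/-!
# Static ties with faster coordinates

`SlR`: the slopes; `extOf_JR`: the joint property of P4J with static ties from `XR4`. `nok_RJ2`: no
boxes of the kinds, by P4J with static ties. `CovJ2`: the windows where the slope of the target is at
least `2`, one coordinate is static, at least as fast as the target, the coordinates before it are
thin, and the others are thin (slower than `2`, tied or faster) or above (faster than the target, of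
slope at least `3`). `noB_J2`: no boxes at these windows.
-/

set_option autoImplicit false

namespace Pool.PKG

open MeasureTheory Set Filter Topology
open Pool.Agent.H49.Ent Pool.Agent.H32.Dense Pool.STK Pool.KA Pool.KSAT Pool.K2S Pool.PB
open Pool.GEN Pool.S6C Pool.STAT Pool.CHT Pool.GRW Pool.ONE Pool.STA
open Pool.LBT (LSys ThrOf)
open Pool.LEV (Law Lv)
open Pool.ALL (RateOf)
open Pool.TOP (TopS)
open Pool.RTS (iso Diag)
open Pool.STR (NumI CellD RowD NfB AffB Rle Nw ThinAt SteepAt StaAt)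
open Pool.ISO (ChI)
open Pool.CHB (chsysB)
open Pool.STAT.CLO Pool.MIC6
open Pool.P4 (NFc1)

variable {n : ℕ} {hn : 2 ≤ n} {S : PCl n} {P : ℝ → ℝ → ℝ} {rr : ℝ → ℝ}
  {P' : ℕ → List (Fin n) × Fin n → ℝ → ℝ → ℝ} {Λ : Finset (Fin n) → Fin n → ℝ → ℝ → ℝ}
  {PB : ℕ → List (Fin n) × Fin n → ℝ → ℝ → ℝ}

/-! ### Slopes -/

/-- The slopes of P4J with static ties: `x.1` has labels with gain, there is no claim about the
coordinates outside `x.2`. -/
def SlR (hn : 2 ≤ n) (P : ℝ → ℝ → ℝ) (P' : ℕ → List (Fin n) × Fin n → ℝ → ℝ → ℝ) (c : ℝ)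
    (x : Fin (n - 1) × Finset (Fin n)) (o : Od n) (g : ℝ) : Prop :=
  2 ≤ slN hn P P' o (n - 1) g ∧ slN hn P P' o (n - 1) g ≤ slN hn P P' o x.1 g ∧
    (∀ l < n - 1, slN hn P P' o l g ≤ 2 - c ∨
      (slN hn P P' o l g = slN hn P P' o (n - 1) g ∨
        slN hn P P' o (n - 1) g + c ≤ slN hn P P' o l g)) ∧
    ∀ l < n - 1, l ≠ x.1 → ¬ InR x.2 l → slN hn P P' o (n - 1) g + c ≤ slN hn P P' o l g ∧
      3 ≤ slN hn P P' o l g

theorem slR_mono {c c' : ℝ} {x : Fin (n - 1) × Finset (Fin n)} {o : Od n} {g : ℝ}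
    (h : SlR hn P P' c' x o g) (hc : c ≤ c') : SlR hn P P' c x o g := by
  refine ⟨h.1, h.2.1, fun l hl => ?_, fun l hl h1 h2 => ?_⟩
  · rcases h.2.2.1 l hl with h1 | h1 | h1
    · exact Or.inl (by linarith)
    · exact Or.inr (Or.inl h1)
    · exact Or.inr (Or.inr (by linarith))
  · obtain ⟨h3, h4⟩ := h.2.2.2 l hl h1 h2
    exact ⟨by linarith, h4⟩

theorem slR_at {x : Fin (n - 1) × Finset (Fin n)} {o : Od n} {g : ℝ}
    (h2 : 2 ≤ slN hn P P' o (n - 1) g) (h3 : slN hn P P' o (n - 1) g ≤ slN hn P P' o x.1 g)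
    (h : ∀ l < n - 1, slN hn P P' o l g < 2 ∨ slN hn P P' o l g = slN hn P P' o (n - 1) g ∨
      slN hn P P' o (n - 1) g < slN hn P P' o l g)
    (h4 : ∀ l < n - 1, l ≠ x.1 → ¬ InR x.2 l →
      slN hn P P' o (n - 1) g < slN hn P P' o l g ∧ 3 ≤ slN hn P P' o l g) :
    ∃ c : ℝ, 0 < c ∧ ∀ c' : ℝ, 0 < c' → c' ≤ c → SlR hn P P' c' x o g := by
  classical
  obtain ⟨c, hc, hc1⟩ := pos_fin (Finset.range (n - 1))
    (f := fun l => if slN hn P P' o l g < 2 then 2 - slN hn P P' o l g else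
      if slN hn P P' o l g = slN hn P P' o (n - 1) g then 1 else
        slN hn P P' o l g - slN hn P P' o (n - 1) g) fun l hl => by
      split_ifs with h1 h2
      · linarith
      · exact one_pos
      · rcases h l (Finset.mem_range.1 hl) with h4 | h4 | h4
        · exact absurd h4 h1
        · exact absurd h4 h2
        · linarith
  refine ⟨c, hc, fun c' _ hcc => slR_mono ⟨h2, h3, fun l hl => ?_, fun l hl k1 k2 => ?_⟩ hcc⟩
  · have h4 := hc1 l (Finset.mem_range.2 hl)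
    beta_reduce at h4
    split_ifs at h4 with h1 h2
    · exact Or.inl (by linarith)
    · exact Or.inr (Or.inl h2)
    · exact Or.inr (Or.inr (by linarith))
  · obtain ⟨k3, k4⟩ := h4 l hl k1 k2
    have h5 := hc1 l (Finset.mem_range.2 hl)
    beta_reduce at h5
    rw [if_neg (by linarith), if_neg (by intro h6; linarith)] at h5
    exact ⟨by linarith, k4⟩

/-- The conditions for the slopes of P4J with static ties. -/
theorem qJ2_of {c : ℝ} {x : Fin (n - 1) × Finset (Fin n)} {o : Od n} {g : ℝ} {gam : ℕ → ℝ}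
    (hA : SlR hn P P' c x o g)
    (hgam : ∀ l, 1 ≤ l → l ≤ n - 1 + 1 → gam l = max 0 (slN hn P P' o (l - 1) g - 1)) :
    QJ2 (fun u => u ≠ (x.1 : ℕ) + 1) (fun u => u ≠ (x.1 : ℕ) + 1 ∧ InR x.2 (u - 1))
      (n - 1 + 1) (min c 1) (fun _ => 1) gam := by
  obtain ⟨h2, h3, h4, h5⟩ := hA
  have e1 := hgam (n - 1 + 1) (by omega) le_rfl
  rw [Nat.add_sub_cancel, max_eq_right (by linarith)] at e1
  refine ⟨fun _ _ _ => rfl, by rw [e1]; linarith, fun l l1 l2 => ?_, fun l l1 l2 hR => ?_,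
    fun l l1 l2 hR hRn => ?_⟩
  · rw [e1, hgam l l1 l2.le]
    rcases h4 (l - 1) (by omega) with h6 | h6 | h6
    · refine Or.inl (max_le ?_ ?_)
      · linarith [min_le_right c 1]
      · linarith [min_le_left c 1]
    · refine Or.inr (Or.inl ?_)
      rw [h6, max_eq_right (by linarith)]
    · refine Or.inr (Or.inr (le_max_of_le_right ?_))
      linarith [min_le_left c 1]
  · have h6 : l = (x.1 : ℕ) + 1 := by
      by_contra h7
      exact hR h7
    rw [e1, hgam l l1 l2.le, h6, Nat.add_sub_cancel]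
    exact le_max_of_le_right (by linarith)
  · have h6 : l - 1 ≠ (x.1 : ℕ) := fun h7 => hR (by omega)
    obtain ⟨h7, h8⟩ := h5 (l - 1) (by omega) h6 fun h9 => hRn ⟨hR, h9⟩
    rw [e1, hgam l l1 l2.le]
    exact ⟨le_max_of_le_right (by linarith [min_le_left c 1]), le_max_of_le_right (by linarith)⟩

/-! ### The joint property -/

variable (H : PkT hn S P rr P' Λ PB) {hTop : TopS n} {hF : FZX (n - 1)} {h : ℝ}
  {ρ' : ℝ → ℝ} {hρ : Rle rr ρ'}

/-- **The joint property of P4J with static ties** from `XR4` and no slabs. -/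
theorem extOf_JR {p : ((H.nk hTop hF).chg hρ H.up).Par} (hpI : AdP H p) {ι : Type}
    {kd : p.cell.α → ι} {c β h' M : ℝ} {x : ι} (hc : 0 < c) (hβ : 0 < β)
    (hnsl : NslI H p (IsK p.cell kd c β h' M x)) (R Rn : ℕ → Prop) (x' : ℝ) :
    ExtOfR H p (IsK p.cell kd c β h' M x) R Rn x' (fun K' => XJR K' 1 R Rn x') := by
  intro K₀ K' K₄ s₁ sh hK₀ hK' hK₄ W her hWs h4
  have hI' := isK_mono p.cell kd c β h' M x
  obtain ⟨C₄, h4⟩ := h4
  obtain ⟨C₅, h5⟩ := hnsl K₀ K' s₁ sh hK₀ hK'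
  refine ⟨max C₄ C₅, fun C₁ hC₁ B hB hPB M' Q K'' η' κ hη hκ => ?_⟩
  have c5 : C₅ ≤ C₁ := (le_max_right _ _).trans hC₁
  refine ((h4 C₁ ((le_max_left _ _).trans hC₁) B hB hPB M' Q K'' η' κ hη hκ).and hI'
    (((h5 C₁ c5 M' 1 κ hκ).mono fun N θ q h2 => h2.setW (her := her) (hWs q N M' θ)
      fun _ _ _ _ _ _ h3 => h3).and hI'
      (slp_P hI' ((kitN H p K₀).kit.setW W her) (fun q => kit_inj H p K₀ q.k)
        (fun _ _ _ => rfl) (kit_cel H hpI (kd := kd) (h' := h') (M := M) hc hβ x K₀) hK'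
        (s₁ := s₁) (sh := sh) (S := S) M'))).mono fun N θ p hp => ?_
  refine (hp.1.and (hp.2.1.and hp.2.2)).mono
    fun b e J F D q hq lam' gam' l1 l2 l3 l4 => ?_
  exact ⟨hq.1 lam' gam' l1 l2 l3 l4, strt_nd _ _ _ _ _ _ _ _ _, hq.2.2, hq.2.1⟩

/-! ### No boxes of the kinds -/

variable {H} in
/-- **No boxes, one coordinate has labels with gain**, by P4J with static ties. -/
theorem nok_RJ2 {x' : ℝ} {PW : ℕ → List (Fin n) × Fin n → ℝ → ℝ → ℝ}
    (hPW : ∀ j, ThrOf (chsysB n none (P' j)) S (PW j))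
    (hP : ∀ (K' : ℕ) (R Rn : ℕ → Prop) (c : ℝ), 0 < c → MicX (XJR K' 1 R Rn x')
      (QJ2 R Rn (n - 1 + 1) c) (fun B => B = n + 2) (n - 1 + 1) K' h)
    (hh : 0 < h) (hh1 : h ≤ 1) :
    NoKd H (kpR2 H hTop hF hρ h PW (SlR hn P P')) (HypJ H _ x') :=
  nok_R2 (X := fun l₀ Rs K' => XJR K' 1 (fun u => u ≠ l₀ + 1)
      (fun u => u ≠ l₀ + 1 ∧ InR Rs (u - 1)) x')
    (fun l₀ Rs K' => xJR_mono K' 1 _ _ x') hPW
    (Qc := fun c _ l₀ Rs => QJ2 (fun u => u ≠ l₀ + 1) (fun u => u ≠ l₀ + 1 ∧ InR Rs (u - 1))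
      (n - 1 + 1) (min c 1))
    (fun _ _ _ _ => qJ2_cl _ _ (by omega) _)
    (fun K' c β l₀ Rs hc _ _ => hP K' _ _ _ (lt_min hc one_pos))
    (fun c β l₀ Rs o g gam _ _ hA _ hgam => qJ2_of (x := (l₀, Rs)) hA hgam)
    (fun _ _ _ hy => ⟨hy.1, hy.2.1, hy.2.2.1⟩)
    (fun y p hp _ kd y' c β h' M hc hβ hy => extOf_JR H hp hc hβ hy.2.2.2 _ _ x') hh hh1

/-! ### The windows -/

/-- **The windows of P4J with a static tie**: the slope of the target is at least `2`; one coordinate is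
not thin and at least as fast as the target, the coordinates before it are thin; the others are thin,
of a slope smaller than `2`, or tied or faster, or they are above. -/
def CovJ2 (hn : 2 ≤ n) (P : ℝ → ℝ → ℝ) (P' PB : ℕ → List (Fin n) × Fin n → ℝ → ℝ → ℝ) (o : Od n)
    (g : ℝ) : Prop :=
  2 ≤ slN hn P P' o (n - 1) g ∧
    ∃ l₀ < n - 1, (¬ ThN hn P P' PB o l₀ g ∧
      slN hn P P' o (n - 1) g ≤ slN hn P P' o l₀ g) ∧
      (∀ l < l₀, ThN hn P P' PB o l g) ∧
      ∀ l < n - 1, l ≠ l₀ →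
        (ThN hn P P' PB o l g ∧ (slN hn P P' o l g < 2 ∨
          slN hn P P' o l g = slN hn P P' o (n - 1) g ∨
          slN hn P P' o (n - 1) g < slN hn P P' o l g)) ∨
        (slN hn P P' o (n - 1) g < slN hn P P' o l g ∧ 3 ≤ slN hn P P' o l g)

variable {H} in
/-- **The windows with static ties covered by P4J have no boxes.** -/
theorem noB_J2 (hh : 0 < h) (hh1 : h ≤ 1) {x : ℝ}
    (hJ : ∀ (K' : ℕ) (R Rn : ℕ → Prop) (c : ℝ), 0 < c → MicX (XJR K' 1 R Rn x)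
      (QJ2 R Rn (n - 1 + 1) c) (fun B => B = n + 2) (n - 1 + 1) K' h)
    {PW : ℕ → List (Fin n) × Fin n → ℝ → ℝ → ℝ}
    (hPW : ∀ j, ThrOf (chsysB n none (P' j)) S (PW j)) {X : Od n → ℝ → Prop} {ιE : Type}
    [Finite ιE] {KE : NumI.KndP ((H.nk hTop hF).chg hρ H.up) ιE} (hE : HasK H KE (HypJ H _ x))
    (hcE : CovK KE h X) :
    NoB H hTop hF hρ h fun o g => (TieT hn P P' PB o g ∧ CovJ2 hn P P' PB o g) ∧ X o g := by
  classical
  have nT := nok_RJ2 (H := H) (hTop := hTop) (hF := hF) (hρ := hρ) (x' := x) hPW hJ hh hh1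
  refine noB_of (nT.and KE) ?_ (CovK.and (fun o => ?_) hcE)
  · intro p hp κ kd y x' c β h₁ M hc hβ hK
    have hK' : OnK H KE p x'.2 c (IsK p.cell kd c β h₁ M y) :=
      ⟨fun ε q hq => (hK.A ε q hq).2, fun ε' hε' => (hK.Φ ε' hε').mono fun _ h => h.2⟩
    exact hE p hp kd y x'.2 c β h₁ M hc hβ hK'
  filter_upwards [slo_two H hTop hF, H.rgh_ae hTop hF hPW,
      H.gnW_ae hTop hF, H.dia_all H.pble hTop hF]
      with g ktwo krW kgn kdia R hrw hX
  obtain ⟨hT, h2s, l₀, hl₀, ⟨hth₀, hl⟩, hth, hoth⟩ := hX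
  have ho := R.mem
  have hths := hT.ths
  obtain ⟨hsta, h2⟩ := ktwo o ho l₀ hl₀ (fun k hk => hths k (hk.trans hl₀)) (hths l₀ hl₀) hth₀
  -- the rough coordinates
  obtain ⟨Rs, hRs⟩ : ∃ Rs : Finset (Fin n), ∀ l < n - 1, InR Rs l ↔ ThN hn P P' PB o l g := by
    refine ⟨Finset.univ.filter fun x : Fin n => ThN hn P P' PB o x g, fun l hl => ⟨?_, fun h1 => ?_⟩⟩
    · rintro ⟨x, hx, rfl⟩
      exact (Finset.mem_filter.1 hx).2
    · exact ⟨⟨l, by omega⟩, Finset.mem_filter.2 ⟨Finset.mem_univ _, h1⟩, rfl⟩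
  have hslo : ∀ l < n - 1, slN hn P P' o l g < 2 ∨
      slN hn P P' o l g = slN hn P P' o (n - 1) g ∨
      slN hn P P' o (n - 1) g < slN hn P P' o l g := by
    intro l hl'
    by_cases h1 : l = l₀
    · rw [h1]
      rcases hl.lt_or_eq with h3 | h3
      · exact Or.inr (Or.inr h3)
      · exact Or.inr (Or.inl h3.symm)
    · rcases hoth l hl' h1 with h3 | h3
      · exact h3.2
      · exact Or.inr (Or.inr h3.1)
  have hrgh : ∀ l ≤ n - 1, l ≠ l₀ → (l < l₀ ∨ (l = n - 1 ∨ InR Rs l)) → Sml fun r d =>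
      Box7 g r fun a w =>
        bet (PW o.2) (cc hn o.1.1) l a w ≤ dgN hn P P' o l w + (a - w) + d := by
    intro l hle hll h3
    refine krW o ho l hle ?_
    by_cases h4 : l = n - 1
    · subst h4
      have eL : LvL hn P P' o (n - 1) = P := by
        funext a w
        exact LvL_top o a w
      rw [eL, LvT_top]
      exact hT.thin
    · rcases h3 with h3 | h3 | h3
      · exact hth l h3
      · exact absurd h3 h4
      · exact (hRs l (by omega)).1 h3
  have hdif : DifferentiableAt ℝ (dgN hn P P' o l₀) g := by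
    have h6 : dgN hn P P' o l₀ = fun a => LvL hn P P' o l₀ a a :=
      funext fun a => dgN_LvL o hl₀.le a
    rw [h6]
    exact (kdia o ho l₀ hl₀.le).1
  have hsta' : StaAt (bet (P' o.2) (cc hn o.1.1) l₀) g := by
    have h6 : LvL hn P P' o l₀ = bet (P' o.2) (cc hn o.1.1) l₀ := by
      funext a w
      exact LvL_lt o hl₀ a w
    rwa [h6] at hsta
  have hcon := con_sml hl₀ hdif h2 hsta'
  have hgn := kgn o ho l₀ hl₀ (fun k hk => hth k hk) hsta h2
  refine ⟨(⟨l₀, hl₀⟩, Rs), kpR2_at (l₀ := ⟨l₀, hl₀⟩) (Rs := Rs)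
    (slR_at (x := (⟨l₀, hl₀⟩, Rs)) h2s hl hslo fun l hl' h5 h6 => ?_)
    (srt_gs H.toPk hTop hF ho) hrw hrgh hcon hgn⟩
  rcases hoth l hl' h5 with h7 | h7
  · exact absurd ((hRs l hl').2 h7.1) h6
  · exact h7

end Pool.PKG
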