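import Pool.Agent.H14.P4J.Fst
import Pool.Agent.H14.P4J.KdR

/-!
# The windows with a static tie and a faster coordinate, with P4J

`tol_micJ2`: the local theorem P4J with static ties for small tolerances. `noB_JY2`: no boxes at the
windows covered by it, from the facts of the boxes and the closed lower bound. `FtRem2`: the windows
with a tie and a faster coordinate which are not covered by P4, P5, P4I, P4J and P4J with static ties;
`noB_fastJ2`: if they have no boxes, no window with a tie and a faster coordinate has boxes.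

`StV`: place one static of a slope larger than two, or place two static of a slope strictly between
two and three over a static place one. `ftRem2_st`: in dimension four the windows of `FtRem2` have
this property.
-/

set_option autoImplicit false

namespace Pool.PKG

open MeasureTheory Set Filter Topology
open Pool.Agent.H49.Ent Pool.Agent.H32.Dense Pool.STK Pool.KA Pool.KSAT Pool.K2S Pool.PB
open Pool.GEN Pool.S6C Pool.STAT Pool.CHT Pool.GRW Pool.ONE Pool.STA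
open Pool.LBT (LSys ThrOf)
open Pool.LEV (Law Lv)
open Pool.ALL (RateOf)
open Pool.TOP (TopS)
open Pool.RTS (iso Diag)
open Pool.STR (NumI CellD RowD NfB AffB Rle Nw ThinAt SteepAt StaAt)
open Pool.CHB (chsysB)
open Pool.STAT.CLO Pool.MIC6

variable {n : ℕ} {hn : 2 ≤ n} {S : PCl n} {P : ℝ → ℝ → ℝ} {rr : ℝ → ℝ}
  {P' : ℕ → List (Fin n) × Fin n → ℝ → ℝ → ℝ} {Λ : Finset (Fin n) → Fin n → ℝ → ℝ → ℝ}
  {PB : ℕ → List (Fin n) × Fin n → ℝ → ℝ → ℝ}
  {H : PkT hn S P rr P' Λ PB} {hTop : TopS n} {hF : FZX (n - 1)} {h : ℝ}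
  {ρ' : ℝ → ℝ} {hρ : Rle rr ρ'}

/-- **The windows with static ties covered by P4J have no boxes**, from the facts. -/
theorem noB_JY2 (hn4 : n ≤ 4) (hFk : ∀ k, 1 ≤ k → k < n → FZX k) (hh : 0 < h) (hh1 : h ≤ 1)
    {x : ℝ}
    (hJ : ∀ (K' : ℕ) (R Rn : ℕ → Prop) (c : ℝ), 0 < c → MicX (XJR K' 1 R Rn x)
      (QJ2 R Rn (n - 1 + 1) c) (fun B => B = n + 2) (n - 1 + 1) K' h)
    {PW : ℕ → List (Fin n) × Fin n → ℝ → ℝ → ℝ}
    (hPW : ∀ j, ThrOf (chsysB n none (P' j)) S (PW j)) {X Y : Od n → ℝ → Prop}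
    (hX : ExY H hTop hF hρ h X) (hY : FcB H hTop hF hρ h x Y) :
    NoB H hTop hF hρ h fun o g => (TieT hn P P' PB o g ∧ CovJ2 hn P P' PB o g) ∧
      (X o g ∧ Y o g) := by
  obtain ⟨ιE, fE, KE, hE, hcE⟩ := hX.hasJ hY hn4 hFk
  exact noB_J2 hh hh1 hJ hPW hE hcE

/-- **A static place of a wrong slope**: place one is not thin and has a slope larger than two, or the
places one and two are not thin and the slope of place two is strictly between two and three. -/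
def StV (hn : 2 ≤ n) (P : ℝ → ℝ → ℝ) (P' PB : ℕ → List (Fin n) × Fin n → ℝ → ℝ → ℝ) (o : Od n)
    (g : ℝ) : Prop :=
  ¬ ThN hn P P' PB o 1 g ∧ (2 < slN hn P P' o 1 g ∨
    (¬ ThN hn P P' PB o 2 g ∧ 2 < slN hn P P' o 2 g ∧ slN hn P P' o 2 g < 3))

end Pool.PKG

namespace Pool.ASM

open MeasureTheory Set Filter Topology
open Pool.Agent.H49.Ent Pool.Agent.H32.Dense Pool.STK Pool.KA Pool.KSAT Pool.K2S Pool.PB
open Pool.GEN Pool.S6C Pool.GRW Pool.PKG Pool.STAT Pool.PM Pool.R1 Pool.Z4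
open Pool.ONE (LocE Ext0 Ext rowN_of_ext)
open Pool.TOP (TopS rw_all)
open Pool.LEV (Law Lv)
open Pool.STR (NumI TopW Mac StaAt IsoAt StaU1 ThinAt SteepAt Rle)
open Pool.MIC6
open Pool.SW (TopC NtO OneS NoTie Rgh Xa TieO)

/-- **The local theorem P4J with static ties**, for small tolerances and for all numbers slightly
larger than the maximal deficit. -/
theorem tol_micJ2 (hP : P4JStmt2) {n B₀ : ℕ} (hn : 1 ≤ n) (hB₀ : 1 ≤ B₀) :
    Tol fun η => ∀ D, 0 < D → D ≤ 1 → ∃ x₀ : ℝ, (1 + η D) * D < x₀ ∧ ∀ x : ℝ, x ≤ x₀ →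
      ∀ (K : ℕ) (R Rn : ℕ → Prop) (c : ℝ), 0 < c →
        MicX (XJR K 1 R Rn x) (QJ2 R Rn n c) (fun B => B = B₀) n K ((1 - η D) * D) := by
  have h0 : Tol fun η => ∀ D, 0 < D → D ≤ 1 → ∃ x₀ : ℝ, (1 + η D) * D < x₀ ∧
      ∀ (K : ℕ) (R Rn : ℕ → Prop) (c : ℝ), 0 < c →
        MicX (XJR K 1 R Rn x₀) (QJ2 R Rn n c) (fun B => B = B₀) n K ((1 - η D) * D) := by
    refine Tol.ofD (Q := fun D y => ∃ x : ℝ, (1 + y) * D < x ∧
      ∀ (K : ℕ) (R Rn : ℕ → Prop) (c : ℝ), 0 < c →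
        MicX (XJR K 1 R Rn x) (QJ2 R Rn n c) (fun B => B = B₀) n K ((1 - y) * D))
      fun D hD hD1 => ?_
    obtain ⟨δ, hδ, h1⟩ := micX_J2 hP hn hB₀ (half_pos hD)
    refine ⟨min (1 / 2) (δ / (4 * D)), lt_min (by norm_num) (by positivity),
      fun y hy hy' => ?_⟩
    have hy1 : y ≤ 1 / 2 := hy'.trans (min_le_left _ _)
    have hy2 : y ≤ δ / (4 * D) := hy'.trans (min_le_right _ _)
    rw [le_div_iff₀ (by positivity)] at hy2
    exact ⟨(1 - y) * D + δ, by nlinarith, fun K R Rn c hc =>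
      h1 K 1 R Rn ((1 - y) * D) c (by nlinarith) (by nlinarith) hc⟩
  refine h0.mono fun η h D hD hD1 => ?_
  obtain ⟨x₀, h1, h2⟩ := h D hD hD1
  refine ⟨x₀, h1, fun x hx K R Rn c hc => ?_⟩
  exact (h2 K R Rn c hc).mono (fun _ _ hX => ⟨⟨hX.1.1, nFc_mono hX.1.2.1 hx le_rfl, hX.1.2.2⟩,
    hX.2⟩) (fun _ _ h => h) fun _ h => h

section

variable {n : ℕ} {hn : 2 ≤ n} {S : PCl n} {P : ℝ → ℝ → ℝ} {r ρ : ℝ → ℝ}
  {P' : ℕ → List (Fin n) × Fin n → ℝ → ℝ → ℝ} {Λ : Finset (Fin n) → Fin n → ℝ → ℝ → ℝ}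
  {PB : ℕ → List (Fin n) × Fin n → ℝ → ℝ → ℝ}

/-- **The windows with a tie and a faster coordinate**, outside `X`, which are not covered by P4, P5,
P4I, P4J and P4J with static ties. -/
def FtRem2 (X : WinC) (H : PkT hn S P r P' Λ PB) (hTop : TopS n) (hF : FZX (n - 1)) (o : Od n)
    (g : ℝ) : Prop := FtRem X H hTop hF o g ∧ ¬ CovJ2 hn P P' PB o g

/-- **No boxes at the windows of** `FtRem`, from P4J with static ties and the remaining ones. -/
theorem noB_ftRem {X : WinC} {H : PkT hn S P r P' Λ PB} {hTop : TopS n} {hF : FZX (n - 1)}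
    (hn4 : n ≤ 4) (hFk : ∀ k, 1 ≤ k → k < n → FZX k) {h : ℝ} (hh : 0 < h) (hh1 : h ≤ 1) {x : ℝ}
    (hJ : ∀ (K' : ℕ) (R Rn : ℕ → Prop) (c : ℝ), 0 < c → MicX (XJR K' 1 R Rn x)
      (QJ2 R Rn (n - 1 + 1) c) (fun B => B = n + 2) (n - 1 + 1) K' h)
    {PW : ℕ → List (Fin n) × Fin n → ℝ → ℝ → ℝ}
    (hPW : ∀ j, Pool.LBT.ThrOf (Pool.CHB.chsysB n none (P' j)) S (PW j))
    (hX : ExY H hTop hF (H.rle h) h (ExWX X H hTop hF))
    (hY : FcB H hTop hF (H.rle h) h x (FtWX X H hTop hF))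
    (hR : NoB H hTop hF (H.rle h) h (FtRem2 X H hTop hF)) :
    NoB H hTop hF (H.rle h) h (FtRem X H hTop hF) := by
  refine ((noB_JY2 hn4 hFk hh hh1 hJ hPW hX hY).or hR).mono fun o => ?_
  filter_upwards [fast_one hn4 H hTop hF o] with g k1 R hg
  have hg' : FtWX X H hTop hF o g := hg.1.1
  have hE : ExWX X H hTop hF o g :=
    ⟨⟨hg'.1.1.one, hg'.1.1.thin⟩, k1 R.mem hg'.1.1 hg'.1.2, hg'.2⟩
  by_cases hc : CovJ2 hn P P' PB o g
  · exact Or.inl ⟨⟨hg'.1.1, hc⟩, hE, hg'⟩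
  · exact Or.inr ⟨hg, hc⟩

/-- **No boxes at the windows with a tie and a faster coordinate**, from P4, P5, P4I, P4J, P4J with
static ties and the remaining ones. -/
theorem noB_fastJ2 {X : WinC} {H : PkT hn S P r P' Λ PB} {hTop : TopS n} {hF : FZX (n - 1)}
    (hn4 : n ≤ 4) (hFk : ∀ k, 1 ≤ k → k < n → FZX k) {h : ℝ} (hh : 0 < h) (hh1 : h ≤ 1) {x : ℝ}
    (h4 : ∀ (K' : ℕ) (R : ℕ → Prop) (c : ℝ), 0 < c → MicX (XP4 K' 1 R x)
      (QT R (n - 1 + 1) c) (fun B => B = n + 2) (n - 1 + 1) K' h)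
    (h5 : ∀ (K' : ℕ) (R : ℕ → Prop), MicX (XP4 K' 1 R x)
      (Q5 R (n - 1 + 1)) (fun B => B = n + 2) (n - 1 + 1) K' h)
    (hI : ∀ (K' : ℕ) (R : ℕ → Prop) (c : ℝ), 0 < c → MicX (XP4 K' 1 R x)
      (QI R (n - 1 + 1) c) (fun B => B = n + 2) (n - 1 + 1) K' h)
    (hJ : ∀ (K' : ℕ) (R : ℕ → Prop) (c : ℝ), 0 < c → MicX (XJ K' 1 R x)
      (QJ R (n - 1 + 1) c) (fun B => B = n + 2) (n - 1 + 1) K' h)
    (hJ2 : ∀ (K' : ℕ) (R Rn : ℕ → Prop) (c : ℝ), 0 < c → MicX (XJR K' 1 R Rn x)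
      (QJ2 R Rn (n - 1 + 1) c) (fun B => B = n + 2) (n - 1 + 1) K' h)
    {PW : ℕ → List (Fin n) × Fin n → ℝ → ℝ → ℝ}
    (hPW : ∀ j, Pool.LBT.ThrOf (Pool.CHB.chsysB n none (P' j)) S (PW j))
    (hX : ExY H hTop hF (H.rle h) h (ExWX X H hTop hF))
    (hY : FcB H hTop hF (H.rle h) h x (FtWX X H hTop hF))
    (hR : NoB H hTop hF (H.rle h) h (FtRem2 X H hTop hF)) :
    NoB H hTop hF (H.rle h) h (FtWX X H hTop hF) :=
  noB_fastJ hn4 hFk hh hh1 h4 h5 hI hJ hPW hX hY (noB_ftRem hn4 hFk hh hh1 hJ2 hPW hX hY hR)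

end

/-- **In dimension four the remaining windows have a static place of a wrong slope.** -/
theorem ftRem2_st {X : WinC} {hn : 2 ≤ 4} {S : PCl 4} {P : ℝ → ℝ → ℝ} {r : ℝ → ℝ}
    {P' : ℕ → List (Fin 4) × Fin 4 → ℝ → ℝ → ℝ} {Λ : Finset (Fin 4) → Fin 4 → ℝ → ℝ → ℝ}
    {PB : ℕ → List (Fin 4) × Fin 4 → ℝ → ℝ → ℝ} (H : PkT hn S P r P' Λ PB) (hTop : TopS 4)
    (hF : FZX (4 - 1)) (o : Od 4) :
    ∀ᵐ g : ℝ, g ∈ Gs P r P' Λ o → FtRem2 X H hTop hF o g → StV hn P P' PB o g := by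
  filter_upwards [one_zero H hTop hF o, slo_two H hTop hF] with g k1 k2 ho hx
  obtain ⟨⟨⟨hW, hI⟩, hJ⟩, hJ2⟩ := hx
  obtain ⟨⟨hT, hA⟩, -⟩ := hW
  have hths := hT.ths
  have hth : ∀ l < 4 - 1, ¬ ThN hn P P' PB o l g → 2 ≤ slN hn P P' o l g := fun l hl h6 =>
    (k2 o ho l hl (fun k hk => hths k (by omega)) (hths l hl) h6).2
  have hs0 : slN hn P P' o 0 g = 1 := by
    rw [slN_lvl o (by omega)]
    exact k1 ho
  have hth0 : ThN hn P P' PB o 0 g := by
    by_contra h6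
    have h7 := hth 0 (by norm_num) h6
    linarith
  obtain ⟨a, a1, a2, a3⟩ := hT.tie
  have hone := hT.one
  -- the faster coordinate
  obtain ⟨b, hb, hbs⟩ : ∃ b < 4 - 1, slN hn P P' o (4 - 1) g < slN hn P P' o b g := by
    by_contra hcon
    push Not at hcon
    refine hA ⟨by
      have := hone
      rwa [slN_tar] at this, fun j => ?_⟩
    have h1 := hcon j j.2
    rw [slN_tar] at h1
    rw [slo_slN]
    exact h1
  have hb0 : b ≠ 0 := by
    rintro rfl
    rw [hs0] at hbs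
    linarith
  have hab : a ≠ b := by
    rintro rfl
    linarith
  -- the places
  have hcase : (a = 1 ∧ b = 2) ∨ (a = 2 ∧ b = 1) := by omega
  have hall : ∀ l < 4 - 1, l = 0 ∨ l = a ∨ l = b := by omega
  -- the tied coordinate is not thin
  have hna : ¬ ThN hn P P' PB o a g := by
    intro hta
    rcases lt_or_ge (slN hn P P' o (4 - 1) g) 3 with h3 | h3
    · refine hI (Or.inr ⟨h3, b, hb, fun l hl hlb => ?_⟩)
      rcases hall l hl with rfl | rfl | rfl
      · exact hth0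
      · exact hta
      · exact absurd rfl hlb
    · refine hJ ⟨⟨h3, fun l hl => ?_⟩, b, hb, fun l hl hlb => ?_, Or.inr hbs⟩
      · rcases hall l hl with rfl | rfl | rfl
        · left
          rw [hs0]
          norm_num
        · exact Or.inr (Or.inl a3)
        · exact Or.inr (Or.inr hbs)
      · rcases hall l hl with rfl | rfl | rfl
        · exact hth0
        · exact hta
        · exact absurd rfl hlb
  have h2a : 2 ≤ slN hn P P' o a g := hth a (by omega) hna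
  have h2N : 2 ≤ slN hn P P' o (4 - 1) g := by rw [← a3]; exact h2a
  rcases hcase with ⟨rfl, rfl⟩ | ⟨rfl, rfl⟩
  · -- the static tie before
    refine ⟨hna, ?_⟩
    by_contra hcon
    push Not at hcon
    refine hJ2 ⟨h2N, 1, by norm_num, ⟨hna, by rw [a3]⟩, fun l hl => ?_, fun l hl hl1 => ?_⟩
    · have : l = 0 := by omega
      rw [this]
      exact hth0
    · rcases hall l hl with rfl | rfl | rfl
      · left
        refine ⟨hth0, Or.inl ?_⟩
        rw [hs0]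
        norm_num
      · exact absurd rfl hl1
      · by_cases ht : ThN hn P P' PB o 2 g
        · exact Or.inl ⟨ht, Or.inr (Or.inr hbs)⟩
        · exact Or.inr ⟨hbs, hcon.2 ht (by linarith)⟩
  · -- the static tie after the faster coordinate
    have hnb : ¬ ThN hn P P' PB o 1 g := by
      intro htb
      refine hJ2 ⟨h2N, 2, by norm_num, ⟨hna, by rw [a3]⟩, fun l hl => ?_, fun l hl hl1 => ?_⟩
      · have : l = 0 ∨ l = 1 := by omega
        rcases this with rfl | rfl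
        · exact hth0
        · exact htb
      · rcases hall l hl with rfl | rfl | rfl
        · left
          refine ⟨hth0, Or.inl ?_⟩
          rw [hs0]
          norm_num
        · exact absurd rfl hl1
        · exact Or.inl ⟨htb, Or.inr (Or.inr hbs)⟩
    exact ⟨hnb, Or.inl (by linarith)⟩

end Pool.ASM
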