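import Pool.Agent.H35.P4J.Thin
import Pool.Agent.H65.NFC.Red
import Pool.Agent.H14.TT.ScN

/-!
# P4J: the reduction to two closed contexts

As `Pool.NFC65.red3`, the cells have straight lines, labels which do not see the digits of the
positions after `J`, and no slab.
-/

set_option autoImplicit false

namespace Pool.P4J

open Finset Real MvPolynomial
open Pool.Agent.H49.Ent Pool.Agent.H32.Dense Pool.STK Pool.STAT
open Pool.P4 (NFc NFc1 GnL NewLabT LLC ok2_one sub_dmp)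
open Pool.NFC65 (nfc_two DMA_M LLC_M gnL_M)

/-- Smaller grids. -/
theorem slp_M {D : NDat2} {n J z M M' : ℕ} {q : D.Ω → ℝ} (h : D.Slp n J z M q) (hM : M' ≤ M) :
    D.Slp n J z M' q := fun i hi j hj ω hω l l1 l2 b b0 hb =>
  (h i (hi.trans hM) j (hj.trans hM) ω hω l l1 l2 b b0 hb).trans
    (one_div_le_one_div_of_le (by positivity) (pow_le_pow_right₀ one_le_two
      (Nat.add_le_add_left (Nat.mul_le_mul_right z hM) _)))

/-- **The reduction to two closed contexts.** -/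
theorem redJ : RedJ := by
  intro n K A B gam R C₁ h δ hn hB hgam hC H
  obtain ⟨CL, -, hL⟩ := Pool.MIC7.llc_all n K (fun _ => 1) gam C₁ hC (fun _ _ _ => le_rfl) hgam
  obtain ⟨C₂, hC₂, hT2⟩ := nfc_two n K B hn hB (fun _ => 1) gam (fun _ _ _ => le_rfl) hgam C₁ hC
  obtain ⟨M', Q', K', η', κ', ϖ, z₁, hη', hκ', hϖ, hϖ1, H⟩ := H C₂ hC₂ CL
  obtain ⟨M₂, hM₂⟩ : ∃ M₂ : ℕ, M₂ = M' + B * M' * M' + B * M' + 2 := ⟨_, rfl⟩
  have hMM : M' ≤ M₂ := by omega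
  obtain ⟨κ₃, z₃, hκ₃, hL⟩ := hL M₂ (by omega)
  obtain ⟨κ₄, z₄, hκ₄, hT2⟩ := hT2 M' M₂ (by omega) (by omega) (by omega)
  obtain ⟨κs, hκs⟩ : ∃ κs : ℝ, κs = min (min κ' κ₄) (min κ₃ 1) := ⟨_, rfl⟩
  have hs0 : 0 < κs := by rw [hκs]; exact lt_min (lt_min hκ' hκ₄) (lt_min hκ₃ one_pos)
  have hs1 : κs ≤ κ' := by rw [hκs]; exact (min_le_left _ _).trans (min_le_left _ _)
  have hs4 : κs ≤ κ₄ := by rw [hκs]; exact (min_le_left _ _).trans (min_le_right _ _)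
  have hs2 : κs ≤ κ₃ := by rw [hκs]; exact (min_le_right _ _).trans (min_le_left _ _)
  have hs3 : κs ≤ 1 := by rw [hκs]; exact (min_le_right _ _).trans (min_le_right _ _)
  obtain ⟨M, κ, z₂, hκ, H2⟩ := sub_dmp n K hn (fun _ => 1) gam (fun _ _ _ => le_rfl) hgam C₁
    (by linarith) M₂ 2 κs hs0
  refine ⟨M, Q' * (M + 1), K', η', min κ κs, ϖ, max (max z₁ z₄) (max z₂ z₃), hη',
    lt_min hκ hs0, hϖ, hϖ1, ?_⟩
  intro lam J a₀ w₀ z D q U hlam hz hO' hN hNc hT hS hSl hNs hU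
  have hz1 : z₁ ≤ z := ((le_max_left _ _).trans (le_max_left _ _)).trans hz
  have hz4 : z₄ ≤ z := ((le_max_right _ _).trans (le_max_left _ _)).trans hz
  have hz2 : z₂ ≤ z := ((le_max_left _ _).trans (le_max_right _ _)).trans hz
  have hz3 : z₃ ≤ z := ((le_max_right _ _).trans (le_max_right _ _)).trans hz
  have hO := ok2_one hO' hlam
  obtain ⟨N, i₀, j₀, hN2, hG, -, hF, hP⟩ := H2 J a₀ w₀ z D q hz2 (hO.mono_κ (min_le_left _ _))
  have hNR : (2 : ℝ) ≤ N := by exact_mod_cast hN2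
  have hκN : min κ κs ≤ κs * N := by
    have h1 : κs * 1 ≤ κs * N := mul_le_mul_of_nonneg_left (by linarith) hs0.le
    exact (min_le_right _ _).trans (by linarith)
  have hC0 : 0 ≤ C₁ := by linarith
  have hCN : C₁ ≤ C₁ * N := by
    have h1 : C₁ * 1 ≤ C₁ * N := mul_le_mul_of_nonneg_left (by linarith) hC0
    linarith
  have hNM : N ≤ M + 1 := by
    have h1 := hG.i_le
    have h2 : N ≤ (M₂ + 1) * N := Nat.le_mul_of_pos_left N (by omega)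
    omega
  have hQ : Q' * N ≤ Q' * (M + 1) := Nat.mul_le_mul_left Q' hNM
  have hzN : z ≤ N * z := Nat.le_mul_of_pos_left _ (by omega)
  have hj₀ : w₀ + j₀ * z ≤ J := by
    have h1 := hG.lej (Nat.zero_le M₂)
    rw [Nat.zero_mul, Nat.add_zero] at h1
    have h2 : j₀ * z ≤ (M + 1) * z := Nat.mul_le_mul_right z (by omega)
    have h3 := hO.thin
    have h4 := hO.top
    omega
  have hOs := hO.sc hG hN2 hC0 hκN
  have hN' : (D.sc J w₀ i₀ j₀ N z).NF n (N * z) M₂ B gam h C₁ ϖ q := hN.sc hG (hgam n) hCN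
  have hUs := hU.sc hG hC0 hQ hj₀
  obtain ⟨l, l1, l2, hl, i, hi, j, hj, hlab⟩ := H (fun _ => 1) J (a₀ + i₀ * z) (w₀ + j₀ * z)
    (N * z) (D.sc J w₀ i₀ j₀ N z) q (U.sc J w₀ i₀ j₀ N z) (fun _ _ _ => rfl) (hz1.trans hzN)
    (((hOs.subM hMM).mono le_rfl hs1 hC₂)) (DMA_M (hF.mono hs1) hMM)
    (LLC_M (fun i j r U => hL J (a₀ + i₀ * z) (w₀ + j₀ * z) (N * z) κs κs (D.sc J w₀ i₀ j₀ N z) q
      (hz3.trans hzN) hs2 hs3 hOs hP i j r U) hMM)
    (by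
      have h1 := hT.sc hO hG hκN
      unfold NDat2.TmU at h1 ⊢
      have h2 : κs * ((N * z : ℕ) : ℝ) ≤ κ' * ((N * z : ℕ) : ℝ) :=
        mul_le_mul_of_nonneg_right hs1 (Nat.cast_nonneg _)
      linarith)
    hS.sc (slp_M (hSl.sc hG) hMM)
    (((hNs.sc hG hO.thin hO.top).subM hMM).mono le_rfl hC₂ ((min_le_right _ _).trans hs1))
    ((hN'.subM (hgam n) hMM).mono le_rfl hC₂ le_rfl)
    (hT2 J (a₀ + i₀ * z) (w₀ + j₀ * z) (N * z) κs κs (h + δ) (D.sc J w₀ i₀ j₀ N z) q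
      (hz4.trans hzN) hs4 hs3 hOs hP (Pool.NFC65.NFc1.sc hNc hO hG (hgam n) hC0))
    (gnL_M hUs hMM hC₂)
  have hj' : j ≤ M₂ := hj.trans hMM
  exact ⟨l, l1, l2, hl, _, hG.lei (hi.trans hMM), _, hG.lej hj',
    NewLabT.of_sc hO.isLaw.nonneg hG hO.thin hO.top hj' hQ hlab⟩

end Pool.P4J
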