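import Pool.Agent.H14.P4J.Red

/-!
# P4J with labels with gain in the group

As `P4JStmt1`: only the slow coordinates (`gt l < 1`) have to be rough, the coordinates of the
group which are not rough have labels with gain; the conclusion is a new label of the target, or of a
rough coordinate which is not above (`gt l < 1 + th`).

`P4JT2`, `P4JStmt2`: the local theorem. `Pool.P4J.X2J2`, `RedJ2`, `redJ2`: the reduction to two closed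
contexts.
-/

set_option autoImplicit false

namespace Pool.STAT

open Finset MvPolynomial
open Pool.Agent.H49.Ent Pool.Agent.H32.Dense Pool.STK Pool.KS3
open Pool.BFL (Pb)
open Pool.P4 (GnL NBT NewLabT NFc1)

/-- **P4J with static ties, the local theorem**, one set of parameters. -/
def P4JT2 (n K A B : ℕ) (gt : ℕ → ℝ) (th : ℝ) (R : ℕ → Prop) (C₁ h δ : ℝ) : Prop :=
  ∃ (M Q K' : ℕ) (η' κ ϖ : ℝ) (z₀ : ℕ), 0 < η' ∧ 0 < κ ∧ 0 < ϖ ∧ ϖ ≤ 1 ∧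
    ∀ (lam : ℕ → ℝ) (J a₀ w₀ z : ℕ) (D : NDat2) (q : D.Ω → ℝ) (U : GnL D),
      (∀ l, 1 ≤ l → l ≤ n → lam l = 1) → z₀ ≤ z →
      D.Ok2 n K J a₀ w₀ z M lam gt κ C₁ q → D.NF n z M B gt h C₁ ϖ q →
      NFc1 D n z M B gt (h + δ) C₁ q → D.TmU J w₀ z κ q → D.Strt → D.Slp n J z M q →
      D.NoSl n J w₀ z M 1 C₁ κ q → U.Ok n K J a₀ w₀ z M Q R C₁ q →
      ∃ l, 1 ≤ l ∧ l ≤ n ∧ (l = n ∨ (R l ∧ gt l < 1 + th)) ∧ ∃ i ≤ M, ∃ j ≤ M,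
        NewLabT D U J a₀ w₀ z Q R i j l A K' η' q

/-- **P4J with static ties**, all cells, one closed context. `δ` depends only on `n`, `B` and on a
lower bound of `h`. -/
def P4JStmt2 : Prop :=
  ∀ (n B : ℕ) (h₀ : ℝ), 1 ≤ n → 1 ≤ B → 0 < h₀ → ∃ δ : ℝ, 0 < δ ∧
    ∀ (K A : ℕ) (gt : ℕ → ℝ) (th : ℝ) (R : ℕ → Prop) (C₁ h : ℝ), h₀ ≤ h → h ≤ 1 →
    (∀ l, 0 ≤ gt l) → 1 ≤ th → gt n - 1 < th → th ≤ gt n →
    (∀ l, 1 ≤ l → l < n → gt l < 1 ∨ th ≤ gt l) →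
    (∀ l, 1 ≤ l → l < n → gt l < 1 → R l) → 1 ≤ C₁ → P4JT2 n K A B gt th R C₁ h δ

/-- P4J with static ties contains P4J. -/
theorem P4JStmt2.one (H : P4JStmt2) : P4JStmt1 := by
  intro n B h₀ hn hB hh₀
  obtain ⟨δ, hδ, H⟩ := H n B h₀ hn hB hh₀
  refine ⟨δ, hδ, fun K A gt th R C₁ h h1 h2 g0 t1 t2 t3 gs gR hC => ?_⟩
  obtain ⟨M, Q, K', η', κ, ϖ, z₀, c1, c2, c3, c4, HH⟩ :=
    H K A gt th R C₁ h h1 h2 g0 t1 t2 t3 gs (fun l l1 l2 l3 => gR l l1 l2 (by linarith)) hC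
  refine ⟨M, Q, K', η', κ, ϖ, z₀, c1, c2, c3, c4, ?_⟩
  intro lam J a₀ w₀ z D q U d1 d2 d3 d4 d5 d6 d7 d8 d9 d10
  obtain ⟨l, e1, e2, e3, e4⟩ := HH lam J a₀ w₀ z D q U d1 d2 d3 d4 d5 d6 d7 d8 d9 d10
  exact ⟨l, e1, e2, e3.imp id fun e => e.1, e4⟩

end Pool.STAT

namespace Pool.P4J

open Finset Real MvPolynomial
open Pool.Agent.H49.Ent Pool.Agent.H32.Dense Pool.STK Pool.STAT
open Pool.BFL (Pb)
open Pool.P4 (NFc NFc1 GnL NewLabT LLC ok2_one sub_dmp)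
open Pool.NFC65 (nfc_two DMA_M LLC_M gnL_M)

/-- **The local theorem**, in a cell with the additional laws, two closed contexts, static ties. -/
def X2J2 (n K A B : ℕ) (gt : ℕ → ℝ) (th : ℝ) (R : ℕ → Prop) (C₁ CL h δ : ℝ) : Prop :=
  ∃ (M Q K' : ℕ) (η' κ ϖ : ℝ) (z₀ : ℕ), 0 < η' ∧ 0 < κ ∧ 0 < ϖ ∧ ϖ ≤ 1 ∧
    ∀ (lam : ℕ → ℝ) (J a₀ w₀ z : ℕ) (D : NDat2) (q : D.Ω → ℝ) (U : GnL D),
      (∀ l, 1 ≤ l → l ≤ n → lam l = 1) → z₀ ≤ z →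
      D.Ok2 n K J a₀ w₀ z M lam gt κ C₁ q → D.DMA z M κ q → LLC D n z M CL q →
      D.TmU J w₀ z κ q → D.Strt → D.Slp n J z M q → D.NoSl n J w₀ z M 1 C₁ κ q →
      D.NF n z M B gt h C₁ ϖ q → NFc D n z M B gt (h + δ) C₁ q → U.Ok n K J a₀ w₀ z M Q R C₁ q →
      ∃ l, 1 ≤ l ∧ l ≤ n ∧ (l = n ∨ (R l ∧ gt l < 1 + th)) ∧ ∃ i ≤ M, ∃ j ≤ M,
        NewLabT D U J a₀ w₀ z Q R i j l A K' η' q

/-- **P4J with static ties and two closed contexts.** -/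
def P4JX2 : Prop :=
  ∀ (n B : ℕ) (h₀ : ℝ), 1 ≤ n → 1 ≤ B → 0 < h₀ → ∃ δ : ℝ, 0 < δ ∧
    ∀ (K A : ℕ) (gt : ℕ → ℝ) (th : ℝ) (R : ℕ → Prop) (C₁ CL h : ℝ), h₀ ≤ h → h ≤ 1 →
    (∀ l, 0 ≤ gt l) → 1 ≤ th → gt n - 1 < th → th ≤ gt n →
    (∀ l, 1 ≤ l → l < n → gt l < 1 ∨ th ≤ gt l) →
    (∀ l, 1 ≤ l → l < n → gt l < 1 → R l) → 1 ≤ C₁ → X2J2 n K A B gt th R C₁ CL h δ

/-- **The reduction to two closed contexts**, static ties. -/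
theorem redJ2 (n K A B : ℕ) (gam : ℕ → ℝ) (th : ℝ) (R : ℕ → Prop) (C₁ h δ : ℝ) (hn : 1 ≤ n)
    (hB : 1 ≤ B) (hgam : ∀ l, 0 ≤ gam l) (hC : 1 ≤ C₁)
    (H : ∀ C₂ : ℝ, C₁ ≤ C₂ → ∀ CL : ℝ, X2J2 n K A B gam th R C₂ CL h δ) :
    P4JT2 n K A B gam th R C₁ h δ := by
  obtain ⟨CL, -, hL⟩ := Pool.MIC7.llc_all n K (fun _ => 1) gam C₁ hC (fun _ _ _ => le_rfl) hgam
  obtain ⟨C₂, hC₂, hT2⟩ := nfc_two n K B hn hB (fun _ => 1) gam (fun _ _ _ => le_rfl) hgam C₁ hC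
  obtain ⟨M', Q', K', η', κ', ϖ, z₁, hη', hκ', hϖ, hϖ1, H⟩ := H C₂ hC₂ CL
  obtain ⟨M₂, hM₂⟩ : ∃ M₂ : ℕ, M₂ = M' + B * M' * M' + B * M' + 2 := ⟨_, rfl⟩
  have hMM : M' ≤ M₂ := by omega
  obtain ⟨κ₃, z₃, hκ₃, hL⟩ := hL M₂ (by omega)
  obtain ⟨κ₄, z₄, hκ₄, hT2⟩ := hT2 M' M₂ (by omega) (by omega) (by omega)
  obtain ⟨κs, hκs⟩ : ∃ κs : ℝ, κs = min (min κ' κ₄) (min κ₃ 1) := ⟨_, rfl⟩
  have hs0 : 0 < κs := by rw [hκs]; exact lt_min (lt_min hκ' hκ₄) (lt_min hκ₃ one_pos)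
  have hs1 : κs ≤ κ' := by rw [hκs]; exact (min_le_left _ _).trans (min_le_left _ _)
  have hs4 : κs ≤ κ₄ := by rw [hκs]; exact (min_le_left _ _).trans (min_le_right _ _)
  have hs2 : κs ≤ κ₃ := by rw [hκs]; exact (min_le_right _ _).trans (min_le_left _ _)
  have hs3 : κs ≤ 1 := by rw [hκs]; exact (min_le_right _ _).trans (min_le_right _ _)
  obtain ⟨M, κ, z₂, hκ, H2⟩ := sub_dmp n K hn (fun _ => 1) gam (fun _ _ _ => le_rfl) hgam C₁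
    (by linarith) M₂ 2 κs hs0
  refine ⟨M, Q' * (M + 1), K', η', min κ κs, ϖ, max (max z₁ z₄) (max z₂ z₃), hη',
    lt_min hκ hs0, hϖ, hϖ1, ?_⟩
  intro lam J a₀ w₀ z D q U hlam hz hO' hN hNc hT hS hSl hNs hU
  have hz1 : z₁ ≤ z := ((le_max_left _ _).trans (le_max_left _ _)).trans hz
  have hz4 : z₄ ≤ z := ((le_max_right _ _).trans (le_max_left _ _)).trans hz
  have hz2 : z₂ ≤ z := ((le_max_left _ _).trans (le_max_right _ _)).trans hz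
  have hz3 : z₃ ≤ z := ((le_max_right _ _).trans (le_max_right _ _)).trans hz
  have hO := ok2_one hO' hlam
  obtain ⟨N, i₀, j₀, hN2, hG, -, hF, hP⟩ := H2 J a₀ w₀ z D q hz2 (hO.mono_κ (min_le_left _ _))
  have hNR : (2 : ℝ) ≤ N := by exact_mod_cast hN2
  have hκN : min κ κs ≤ κs * N := by
    have h1 : κs * 1 ≤ κs * N := mul_le_mul_of_nonneg_left (by linarith) hs0.le
    exact (min_le_right _ _).trans (by linarith)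
  have hC0 : 0 ≤ C₁ := by linarith
  have hCN : C₁ ≤ C₁ * N := by
    have h1 : C₁ * 1 ≤ C₁ * N := mul_le_mul_of_nonneg_left (by linarith) hC0
    linarith
  have hNM : N ≤ M + 1 := by
    have h1 := hG.i_le
    have h2 : N ≤ (M₂ + 1) * N := Nat.le_mul_of_pos_left N (by omega)
    omega
  have hQ : Q' * N ≤ Q' * (M + 1) := Nat.mul_le_mul_left Q' hNM
  have hzN : z ≤ N * z := Nat.le_mul_of_pos_left _ (by omega)
  have hj₀ : w₀ + j₀ * z ≤ J := by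
    have h1 := hG.lej (Nat.zero_le M₂)
    rw [Nat.zero_mul, Nat.add_zero] at h1
    have h2 : j₀ * z ≤ (M + 1) * z := Nat.mul_le_mul_right z (by omega)
    have h3 := hO.thin
    have h4 := hO.top
    omega
  have hOs := hO.sc hG hN2 hC0 hκN
  have hN' : (D.sc J w₀ i₀ j₀ N z).NF n (N * z) M₂ B gam h C₁ ϖ q := hN.sc hG (hgam n) hCN
  have hUs := hU.sc hG hC0 hQ hj₀
  obtain ⟨l, l1, l2, hl, i, hi, j, hj, hlab⟩ := H (fun _ => 1) J (a₀ + i₀ * z) (w₀ + j₀ * z)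
    (N * z) (D.sc J w₀ i₀ j₀ N z) q (U.sc J w₀ i₀ j₀ N z) (fun _ _ _ => rfl) (hz1.trans hzN)
    (((hOs.subM hMM).mono le_rfl hs1 hC₂)) (DMA_M (hF.mono hs1) hMM)
    (LLC_M (fun i j r U => hL J (a₀ + i₀ * z) (w₀ + j₀ * z) (N * z) κs κs (D.sc J w₀ i₀ j₀ N z) q
      (hz3.trans hzN) hs2 hs3 hOs hP i j r U) hMM)
    (by
      have h1 := hT.sc hO hG hκN
      unfold NDat2.TmU at h1 ⊢
      have h2 : κs * ((N * z : ℕ) : ℝ) ≤ κ' * ((N * z : ℕ) : ℝ) :=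
        mul_le_mul_of_nonneg_right hs1 (Nat.cast_nonneg _)
      linarith)
    hS.sc (slp_M (hSl.sc hG) hMM)
    (((hNs.sc hG hO.thin hO.top).subM hMM).mono le_rfl hC₂ ((min_le_right _ _).trans hs1))
    ((hN'.subM (hgam n) hMM).mono le_rfl hC₂ le_rfl)
    (hT2 J (a₀ + i₀ * z) (w₀ + j₀ * z) (N * z) κs κs (h + δ) (D.sc J w₀ i₀ j₀ N z) q
      (hz4.trans hzN) hs4 hs3 hOs hP (Pool.NFC65.NFc1.sc hNc hO hG (hgam n) hC0))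
    (gnL_M hUs hMM hC₂)
  have hj' : j ≤ M₂ := hj.trans hMM
  exact ⟨l, l1, l2, hl, _, hG.lei (hi.trans hMM), _, hG.lej hj',
    NewLabT.of_sc hO.isLaw.nonneg hG hO.thin hO.top hj' hQ hlab⟩

/-- **P4J with static ties**, from the form with two closed contexts. -/
theorem p4j2_of (H : P4JX2) : P4JStmt2 := by
  intro n B h₀ hn hB hh₀
  obtain ⟨δ, hδ, H⟩ := H n B h₀ hn hB hh₀
  exact ⟨δ, hδ, fun K A gt th R C₁ h h1 h2 g0 t1 t2 t3 gs gR hC =>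
    redJ2 n K A B gt th R C₁ h δ hn hB g0 hC fun C₂ hC₂ CL =>
      H K A gt th R C₂ CL h h1 h2 g0 t1 t2 t3 gs gR (hC.trans hC₂)⟩

end Pool.P4J
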